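import Mathlib

set_option autoImplicit false

open MeasureTheory

namespace Pool.Agent.K3h16.CO

/-- the piecewise linear function on `[0, ∞)` with values `0, p, q` at `0, 1/5, 2/5`,
constant beyond `2/5`. -/
noncomputable def pl (p q s : ℝ) : ℝ :=
  5 * p * min s (1 / 5) + 5 * (q - p) * (min s (2 / 5) - min s (1 / 5))

lemma pl_low (p q : ℝ) {s : ℝ} (h : s ≤ 1 / 5) : pl p q s = 5 * p * s := by
  unfold pl
  rw [min_eq_left h, min_eq_left (by linarith)]
  ring

lemma pl_mid (p q : ℝ) {s : ℝ} (h : 1 / 5 ≤ s) (h' : s ≤ 2 / 5) :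
    pl p q s = p + 5 * (q - p) * (s - 1 / 5) := by
  unfold pl
  rw [min_eq_right h, min_eq_left h']
  ring

lemma pl_high (p q : ℝ) {s : ℝ} (h : 2 / 5 ≤ s) : pl p q s = q := by
  unfold pl
  rw [min_eq_right (by linarith), min_eq_right h]
  ring

lemma continuous_pl (p q : ℝ) : Continuous (pl p q) := by
  unfold pl
  fun_prop

lemma norm_le_half (x : UnitAddCircle) : ‖x‖ ≤ 1 / 2 := by
  have := AddCircle.norm_le_half_period (1 : ℝ) (x := x) one_ne_zero
  simpa using this

lemma coe_int (n : ℤ) : ((n : ℝ) : UnitAddCircle) = 0 := by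
  rw [AddCircle.coe_eq_zero_iff]
  exact ⟨n, by simp⟩

/-- every point of the circle is `± s` with `s = ‖x‖ ∈ [0, 1/2]`. -/
lemma exists_rep (x : UnitAddCircle) :
    x = ((‖x‖ : ℝ) : UnitAddCircle) ∨ x = ((-‖x‖ : ℝ) : UnitAddCircle) := by
  induction x using QuotientAddGroup.induction_on with
  | H r =>
    have h : ‖(r : UnitAddCircle)‖ = |r - round r| := UnitAddCircle.norm_eq
    have hr : ((r - round r : ℝ) : UnitAddCircle) = (r : UnitAddCircle) := by
      rw [AddCircle.coe_sub, coe_int, sub_zero]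
    rcases abs_cases (r - round r) with ⟨h1, _⟩ | ⟨h1, _⟩
    · left
      change (r : UnitAddCircle) = ((‖(r : UnitAddCircle)‖ : ℝ) : UnitAddCircle)
      rw [h, h1, hr]
    · right
      change (r : UnitAddCircle) = ((-‖(r : UnitAddCircle)‖ : ℝ) : UnitAddCircle)
      rw [h, h1, neg_neg, hr]

lemma norm_coe_of_abs_le {s : ℝ} (h : |s| ≤ 1 / 2) : ‖(s : UnitAddCircle)‖ = |s| := by
  rw [AddCircle.norm_coe_eq_abs_iff (p := 1) one_ne_zero]
  simpa using h

lemma norm_coe_sub_int (s : ℝ) (n : ℤ) : ‖((s - n : ℝ) : UnitAddCircle)‖ = ‖(s : UnitAddCircle)‖ := by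
  rw [AddCircle.coe_sub, coe_int, sub_zero]

lemma norm_two_smul (x : UnitAddCircle) : ‖2 • x‖ = min (2 * ‖x‖) (1 - 2 * ‖x‖) := by
  have h0 := norm_nonneg x
  have h1 := norm_le_half x
  have key : ‖2 • x‖ = ‖((2 * ‖x‖ : ℝ) : UnitAddCircle)‖ := by
    have e : ((2 * ‖x‖ : ℝ) : UnitAddCircle) = 2 • ((‖x‖ : ℝ) : UnitAddCircle) := by
      rw [← AddCircle.coe_nsmul]; simp
    rw [e]
    rcases exists_rep x with h | h
    · conv_lhs => rw [h]
    · conv_lhs => rw [h]
      rw [AddCircle.coe_neg, smul_neg, norm_neg]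
  rw [key]
  rcases le_total (2 * ‖x‖) (1 / 2) with h | h
  · rw [min_eq_left (by linarith), norm_coe_of_abs_le (by rw [abs_of_nonneg (by linarith)]; exact h),
      abs_of_nonneg (by linarith)]
  · rw [min_eq_right (by linarith), ← norm_coe_sub_int (2 * ‖x‖) 1]
    push_cast
    rw [norm_coe_of_abs_le, abs_of_nonpos (by linarith)]
    · ring
    · rw [abs_of_nonpos (by linarith)]; linarith

lemma norm_three_smul (x : UnitAddCircle) : ‖3 • x‖ = min (3 * ‖x‖) |1 - 3 * ‖x‖| := by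
  have h0 := norm_nonneg x
  have h1 := norm_le_half x
  have key : ‖3 • x‖ = ‖((3 * ‖x‖ : ℝ) : UnitAddCircle)‖ := by
    have e : ((3 * ‖x‖ : ℝ) : UnitAddCircle) = 3 • ((‖x‖ : ℝ) : UnitAddCircle) := by
      rw [← AddCircle.coe_nsmul]; simp
    rw [e]
    rcases exists_rep x with h | h
    · conv_lhs => rw [h]
    · conv_lhs => rw [h]
      rw [AddCircle.coe_neg, smul_neg, norm_neg]
  rw [key]
  rcases le_total (3 * ‖x‖) (1 / 2) with h | h
  · rw [min_eq_left, norm_coe_of_abs_le (by rw [abs_of_nonneg (by linarith)]; exact h),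
      abs_of_nonneg (by linarith)]
    rw [abs_of_nonneg (by linarith)]; linarith
  · rw [min_eq_right, ← norm_coe_sub_int (3 * ‖x‖) 1]
    · push_cast
      rw [norm_coe_of_abs_le, abs_sub_comm]
      rw [abs_le]; constructor <;> linarith
    · rw [abs_le]; constructor <;> linarith

end Pool.Agent.K3h16.CO
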