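import Pool.Agent.K3h16.CO.Basic

set_option autoImplicit false

open MeasureTheory

namespace Pool.Agent.K3h16.CO

set_option maxHeartbeats 4000000 in
/-- certificate for the truncated distance `max (t - s) 0`, `1/5 ≤ t ≤ 2/5`. -/
lemma cert1_real {t s : ℝ} (ht : 1 / 5 ≤ t) (ht' : t ≤ 2 / 5) (hs : 0 ≤ s) (hs' : s ≤ 1 / 2) :
    (t - 1 / 5) / 2
      + (pl (1 / 10) (t / 2 - 1 / 15) (min (2 * s) (1 - 2 * s)) - pl (1 / 10) (t / 2 - 1 / 15) s)
      + (pl (2 * t / 3 - 1 / 6) (2 * t / 3 - 1 / 10) (min (3 * s) |1 - 3 * s|)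
          - pl (2 * t / 3 - 1 / 6) (2 * t / 3 - 1 / 10) s) ≤ max (t - s) 0 := by
  have hm1 : t - s ≤ max (t - s) 0 := le_max_left _ _
  have hm2 : 0 ≤ max (t - s) 0 := le_max_right _ _
  rcases le_total s (1 / 15) with h1 | h1
  · rw [min_eq_left (by linarith : 2 * s ≤ 1 - 2 * s), abs_of_nonneg (by linarith : 0 ≤ 1 - 3 * s),
      min_eq_left (by linarith : 3 * s ≤ 1 - 3 * s), pl_low _ _ (by linarith : 2 * s ≤ 1 / 5),
      pl_low _ _ (by linarith : s ≤ 1 / 5), pl_low _ _ (by linarith : 3 * s ≤ 1 / 5),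
      pl_low _ _ (by linarith : s ≤ 1 / 5)]
    nlinarith [mul_nonneg hs (sub_nonneg.2 ht'), mul_nonneg hs (sub_nonneg.2 ht)]
  rcases le_total s (1 / 10) with h2 | h2
  · rw [min_eq_left (by linarith : 2 * s ≤ 1 - 2 * s), abs_of_nonneg (by linarith : 0 ≤ 1 - 3 * s),
      min_eq_left (by linarith : 3 * s ≤ 1 - 3 * s), pl_low _ _ (by linarith : 2 * s ≤ 1 / 5),
      pl_low _ _ (by linarith : s ≤ 1 / 5), pl_mid _ _ (by linarith : 1 / 5 ≤ 3 * s) (by linarith),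
      pl_low _ _ (by linarith : s ≤ 1 / 5)]
    nlinarith [mul_nonneg (sub_nonneg.2 h1) (sub_nonneg.2 ht'),
      mul_nonneg (sub_nonneg.2 h1) (sub_nonneg.2 ht), mul_nonneg (sub_nonneg.2 h2) (sub_nonneg.2 ht'),
      mul_nonneg (sub_nonneg.2 h2) (sub_nonneg.2 ht)]
  rcases le_total s (2 / 15) with h3 | h3
  · rw [min_eq_left (by linarith : 2 * s ≤ 1 - 2 * s), abs_of_nonneg (by linarith : 0 ≤ 1 - 3 * s),
      min_eq_left (by linarith : 3 * s ≤ 1 - 3 * s),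
      pl_mid _ _ (by linarith : 1 / 5 ≤ 2 * s) (by linarith),
      pl_low _ _ (by linarith : s ≤ 1 / 5), pl_mid _ _ (by linarith : 1 / 5 ≤ 3 * s) (by linarith),
      pl_low _ _ (by linarith : s ≤ 1 / 5)]
    nlinarith [mul_nonneg (sub_nonneg.2 h2) (sub_nonneg.2 ht'),
      mul_nonneg (sub_nonneg.2 h2) (sub_nonneg.2 ht), mul_nonneg (sub_nonneg.2 h3) (sub_nonneg.2 ht'),
      mul_nonneg (sub_nonneg.2 h3) (sub_nonneg.2 ht)]
  rcases le_total s (1 / 5) with h4 | h4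
  · have e3 : pl (2 * t / 3 - 1 / 6) (2 * t / 3 - 1 / 10) (min (3 * s) |1 - 3 * s|)
        = 2 * t / 3 - 1 / 10 := by
      apply pl_high
      rw [abs_of_nonneg (by linarith : 0 ≤ 1 - 3 * s)]
      exact le_min (by linarith) (by linarith)
    rw [min_eq_left (by linarith : 2 * s ≤ 1 - 2 * s), e3,
      pl_mid _ _ (by linarith : 1 / 5 ≤ 2 * s) (by linarith),
      pl_low _ _ (by linarith : s ≤ 1 / 5), pl_low _ _ (by linarith : s ≤ 1 / 5)]
    nlinarith [mul_nonneg (sub_nonneg.2 h3) (sub_nonneg.2 ht'),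
      mul_nonneg (sub_nonneg.2 h3) (sub_nonneg.2 ht), mul_nonneg (sub_nonneg.2 h4) (sub_nonneg.2 ht'),
      mul_nonneg (sub_nonneg.2 h4) (sub_nonneg.2 ht)]
  rcases le_total s (4 / 15) with h5 | h5
  · have e2 : pl (1 / 10) (t / 2 - 1 / 15) (min (2 * s) (1 - 2 * s)) = t / 2 - 1 / 15 := by
      apply pl_high
      exact le_min (by linarith) (by linarith)
    rw [abs_of_nonneg (by linarith : 0 ≤ 1 - 3 * s), min_eq_right (by linarith : 1 - 3 * s ≤ 3 * s), e2,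
      pl_mid _ _ (by linarith : 1 / 5 ≤ s) (by linarith),
      pl_mid _ _ (by linarith : 1 / 5 ≤ 1 - 3 * s) (by linarith),
      pl_mid _ _ (by linarith : 1 / 5 ≤ s) (by linarith)]
    rcases le_total s t with h | h
    · nlinarith [mul_nonneg (sub_nonneg.2 h4) (sub_nonneg.2 h),
        mul_nonneg (sub_nonneg.2 h4) (sub_nonneg.2 ht), mul_nonneg (sub_nonneg.2 h5) (sub_nonneg.2 ht'),
        mul_nonneg (sub_nonneg.2 h5) (sub_nonneg.2 ht), mul_nonneg (sub_nonneg.2 h4) (sub_nonneg.2 ht')]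
    · nlinarith [mul_nonneg (sub_nonneg.2 h4) (sub_nonneg.2 h),
        mul_nonneg (sub_nonneg.2 h4) (sub_nonneg.2 ht), mul_nonneg (sub_nonneg.2 h5) (sub_nonneg.2 ht'),
        mul_nonneg (sub_nonneg.2 h5) (sub_nonneg.2 ht), mul_nonneg (sub_nonneg.2 h4) (sub_nonneg.2 ht'),
        mul_nonneg (sub_nonneg.2 h) (sub_nonneg.2 ht)]
  rcases le_total s (3 / 10) with h6 | h6
  · have e2 : pl (1 / 10) (t / 2 - 1 / 15) (min (2 * s) (1 - 2 * s)) = t / 2 - 1 / 15 := by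
      apply pl_high
      exact le_min (by linarith) (by linarith)
    rw [abs_of_nonneg (by linarith : 0 ≤ 1 - 3 * s), min_eq_right (by linarith : 1 - 3 * s ≤ 3 * s), e2,
      pl_mid _ _ (by linarith : 1 / 5 ≤ s) (by linarith),
      pl_low _ _ (by linarith : 1 - 3 * s ≤ 1 / 5),
      pl_mid _ _ (by linarith : 1 / 5 ≤ s) (by linarith)]
    rcases le_total s t with h | h
    · nlinarith [mul_nonneg (sub_nonneg.2 h5) (sub_nonneg.2 h),
        mul_nonneg (sub_nonneg.2 h5) (sub_nonneg.2 ht), mul_nonneg (sub_nonneg.2 h6) (sub_nonneg.2 ht'),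
        mul_nonneg (sub_nonneg.2 h6) (sub_nonneg.2 ht), mul_nonneg (sub_nonneg.2 h5) (sub_nonneg.2 ht')]
    · nlinarith [mul_nonneg (sub_nonneg.2 h5) (sub_nonneg.2 h),
        mul_nonneg (sub_nonneg.2 h5) (sub_nonneg.2 ht), mul_nonneg (sub_nonneg.2 h6) (sub_nonneg.2 ht'),
        mul_nonneg (sub_nonneg.2 h6) (sub_nonneg.2 ht), mul_nonneg (sub_nonneg.2 h5) (sub_nonneg.2 ht'),
        mul_nonneg (sub_nonneg.2 h) (sub_nonneg.2 ht), mul_nonneg (sub_nonneg.2 h6) (sub_nonneg.2 h)]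
  rcases le_total s (1 / 3) with h7 | h7
  · rw [min_eq_right (by linarith : 1 - 2 * s ≤ 2 * s), abs_of_nonneg (by linarith : 0 ≤ 1 - 3 * s),
      min_eq_right (by linarith : 1 - 3 * s ≤ 3 * s),
      pl_mid _ _ (by linarith : 1 / 5 ≤ 1 - 2 * s) (by linarith),
      pl_mid _ _ (by linarith : 1 / 5 ≤ s) (by linarith),
      pl_low _ _ (by linarith : 1 - 3 * s ≤ 1 / 5),
      pl_mid _ _ (by linarith : 1 / 5 ≤ s) (by linarith)]
    rcases le_total s t with h | h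
    · rcases le_total t (34 / 105) with h' | h'
      · nlinarith [mul_nonneg (sub_nonneg.2 h) (sub_nonneg.2 h'), sq_nonneg (t - 31 / 105)]
      · nlinarith [mul_nonneg (sub_nonneg.2 h6) (sub_nonneg.2 h')]
    · nlinarith [mul_nonneg (sub_nonneg.2 h6) (sub_nonneg.2 h),
        mul_nonneg (sub_nonneg.2 h6) (sub_nonneg.2 ht), mul_nonneg (sub_nonneg.2 h7) (sub_nonneg.2 ht'),
        mul_nonneg (sub_nonneg.2 h7) (sub_nonneg.2 ht), mul_nonneg (sub_nonneg.2 h6) (sub_nonneg.2 ht'),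
        mul_nonneg (sub_nonneg.2 h) (sub_nonneg.2 ht), mul_nonneg (sub_nonneg.2 h7) (sub_nonneg.2 h)]
  rcases le_total s (2 / 5) with h8 | h8
  · rw [min_eq_right (by linarith : 1 - 2 * s ≤ 2 * s), abs_of_nonpos (by linarith : 1 - 3 * s ≤ 0),
      min_eq_right (by linarith : -(1 - 3 * s) ≤ 3 * s),
      pl_mid _ _ (by linarith : 1 / 5 ≤ 1 - 2 * s) (by linarith),
      pl_mid _ _ (by linarith : 1 / 5 ≤ s) (by linarith),
      pl_low _ _ (by linarith : -(1 - 3 * s) ≤ 1 / 5),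
      pl_mid _ _ (by linarith : 1 / 5 ≤ s) (by linarith)]
    rcases le_total s t with h | h
    · nlinarith [mul_nonneg (sub_nonneg.2 h7) (sub_nonneg.2 h),
        mul_nonneg (sub_nonneg.2 h7) (sub_nonneg.2 ht), mul_nonneg (sub_nonneg.2 h8) (sub_nonneg.2 ht'),
        mul_nonneg (sub_nonneg.2 h8) (sub_nonneg.2 ht), mul_nonneg (sub_nonneg.2 h7) (sub_nonneg.2 ht')]
    · nlinarith [mul_nonneg (sub_nonneg.2 h7) (sub_nonneg.2 h),
        mul_nonneg (sub_nonneg.2 h7) (sub_nonneg.2 ht), mul_nonneg (sub_nonneg.2 h8) (sub_nonneg.2 ht'),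
        mul_nonneg (sub_nonneg.2 h8) (sub_nonneg.2 ht), mul_nonneg (sub_nonneg.2 h7) (sub_nonneg.2 ht'),
        mul_nonneg (sub_nonneg.2 h) (sub_nonneg.2 ht), mul_nonneg (sub_nonneg.2 h8) (sub_nonneg.2 h)]
  rcases le_total s (7 / 15) with h9 | h9
  · rw [min_eq_right (by linarith : 1 - 2 * s ≤ 2 * s), abs_of_nonpos (by linarith : 1 - 3 * s ≤ 0),
      min_eq_right (by linarith : -(1 - 3 * s) ≤ 3 * s),
      pl_low _ _ (by linarith : 1 - 2 * s ≤ 1 / 5),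
      pl_high _ _ (by linarith : 2 / 5 ≤ s),
      pl_mid _ _ (by linarith : 1 / 5 ≤ -(1 - 3 * s)) (by linarith),
      pl_high _ _ (by linarith : 2 / 5 ≤ s)]
    nlinarith [mul_nonneg (sub_nonneg.2 h8) (sub_nonneg.2 ht'),
      mul_nonneg (sub_nonneg.2 h8) (sub_nonneg.2 ht), mul_nonneg (sub_nonneg.2 h9) (sub_nonneg.2 ht'),
      mul_nonneg (sub_nonneg.2 h9) (sub_nonneg.2 ht)]
  · rw [min_eq_right (by linarith : 1 - 2 * s ≤ 2 * s), abs_of_nonpos (by linarith : 1 - 3 * s ≤ 0),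
      min_eq_right (by linarith : -(1 - 3 * s) ≤ 3 * s),
      pl_low _ _ (by linarith : 1 - 2 * s ≤ 1 / 5),
      pl_high _ _ (by linarith : 2 / 5 ≤ s),
      pl_high _ _ (by linarith : 2 / 5 ≤ -(1 - 3 * s)),
      pl_high _ _ (by linarith : 2 / 5 ≤ s)]
    nlinarith [mul_nonneg (sub_nonneg.2 h9) (sub_nonneg.2 ht'),
      mul_nonneg (sub_nonneg.2 h9) (sub_nonneg.2 ht), mul_nonneg (sub_nonneg.2 hs') (sub_nonneg.2 ht'),
      mul_nonneg (sub_nonneg.2 hs') (sub_nonneg.2 ht)]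

/-- strict certificate for the distance to `0`. -/
lemma cert2_real {s : ℝ} (_hs : 0 ≤ s) (hs' : s ≤ 1 / 2) :
    s + 1 / 4 * min |s - 1 / 5| |s - 2 / 5|
      + (pl (1 / 5) (1 / 4) (min (2 * s) (1 - 2 * s)) - pl (1 / 5) (1 / 4) s)
      + (pl (1 / 20) (1 / 10) (min (3 * s) |1 - 3 * s|) - pl (1 / 20) (1 / 10) s) ≤ 3 / 10 := by
  have hd1 : min |s - 1 / 5| |s - 2 / 5| ≤ |s - 1 / 5| := min_le_left _ _
  have hd2 : min |s - 1 / 5| |s - 2 / 5| ≤ |s - 2 / 5| := min_le_right _ _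
  generalize min |s - 1 / 5| |s - 2 / 5| = m at hd1 hd2 ⊢
  rcases le_total s (1 / 15) with h1 | h1
  · rw [min_eq_left (by linarith : 2 * s ≤ 1 - 2 * s), abs_of_nonneg (by linarith : 0 ≤ 1 - 3 * s),
      min_eq_left (by linarith : 3 * s ≤ 1 - 3 * s), pl_low _ _ (by linarith : 2 * s ≤ 1 / 5),
      pl_low _ _ (by linarith : s ≤ 1 / 5), pl_low _ _ (by linarith : 3 * s ≤ 1 / 5),
      pl_low _ _ (by linarith : s ≤ 1 / 5)]
    rw [abs_of_nonpos (by linarith : s - 1 / 5 ≤ 0)] at hd1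
    linarith
  rcases le_total s (1 / 10) with h2 | h2
  · rw [min_eq_left (by linarith : 2 * s ≤ 1 - 2 * s), abs_of_nonneg (by linarith : 0 ≤ 1 - 3 * s),
      min_eq_left (by linarith : 3 * s ≤ 1 - 3 * s), pl_low _ _ (by linarith : 2 * s ≤ 1 / 5),
      pl_low _ _ (by linarith : s ≤ 1 / 5), pl_mid _ _ (by linarith : 1 / 5 ≤ 3 * s) (by linarith),
      pl_low _ _ (by linarith : s ≤ 1 / 5)]
    rw [abs_of_nonpos (by linarith : s - 1 / 5 ≤ 0)] at hd1
    linarith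
  rcases le_total s (2 / 15) with h3 | h3
  · rw [min_eq_left (by linarith : 2 * s ≤ 1 - 2 * s), abs_of_nonneg (by linarith : 0 ≤ 1 - 3 * s),
      min_eq_left (by linarith : 3 * s ≤ 1 - 3 * s),
      pl_mid _ _ (by linarith : 1 / 5 ≤ 2 * s) (by linarith),
      pl_low _ _ (by linarith : s ≤ 1 / 5), pl_mid _ _ (by linarith : 1 / 5 ≤ 3 * s) (by linarith),
      pl_low _ _ (by linarith : s ≤ 1 / 5)]
    rw [abs_of_nonpos (by linarith : s - 1 / 5 ≤ 0)] at hd1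
    linarith
  rcases le_total s (1 / 5) with h4 | h4
  · have e3 : pl (1 / 20) (1 / 10) (min (3 * s) |1 - 3 * s|) = 1 / 10 := by
      apply pl_high
      rw [abs_of_nonneg (by linarith : 0 ≤ 1 - 3 * s)]
      exact le_min (by linarith) (by linarith)
    rw [min_eq_left (by linarith : 2 * s ≤ 1 - 2 * s), e3,
      pl_mid _ _ (by linarith : 1 / 5 ≤ 2 * s) (by linarith),
      pl_low _ _ (by linarith : s ≤ 1 / 5), pl_low _ _ (by linarith : s ≤ 1 / 5)]
    rw [abs_of_nonpos (by linarith : s - 1 / 5 ≤ 0)] at hd1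
    linarith
  rcases le_total s (4 / 15) with h5 | h5
  · have e2 : pl (1 / 5) (1 / 4) (min (2 * s) (1 - 2 * s)) = 1 / 4 := by
      apply pl_high
      exact le_min (by linarith) (by linarith)
    rw [abs_of_nonneg (by linarith : 0 ≤ 1 - 3 * s), min_eq_right (by linarith : 1 - 3 * s ≤ 3 * s), e2,
      pl_mid _ _ (by linarith : 1 / 5 ≤ s) (by linarith),
      pl_mid _ _ (by linarith : 1 / 5 ≤ 1 - 3 * s) (by linarith),
      pl_mid _ _ (by linarith : 1 / 5 ≤ s) (by linarith)]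
    rw [abs_of_nonneg (by linarith : 0 ≤ s - 1 / 5)] at hd1
    linarith
  rcases le_total s (3 / 10) with h6 | h6
  · have e2 : pl (1 / 5) (1 / 4) (min (2 * s) (1 - 2 * s)) = 1 / 4 := by
      apply pl_high
      exact le_min (by linarith) (by linarith)
    rw [abs_of_nonneg (by linarith : 0 ≤ 1 - 3 * s), min_eq_right (by linarith : 1 - 3 * s ≤ 3 * s), e2,
      pl_mid _ _ (by linarith : 1 / 5 ≤ s) (by linarith),
      pl_low _ _ (by linarith : 1 - 3 * s ≤ 1 / 5),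
      pl_mid _ _ (by linarith : 1 / 5 ≤ s) (by linarith)]
    rw [abs_of_nonneg (by linarith : 0 ≤ s - 1 / 5)] at hd1
    linarith
  rcases le_total s (1 / 3) with h7 | h7
  · rw [min_eq_right (by linarith : 1 - 2 * s ≤ 2 * s), abs_of_nonneg (by linarith : 0 ≤ 1 - 3 * s),
      min_eq_right (by linarith : 1 - 3 * s ≤ 3 * s),
      pl_mid _ _ (by linarith : 1 / 5 ≤ 1 - 2 * s) (by linarith),
      pl_mid _ _ (by linarith : 1 / 5 ≤ s) (by linarith),
      pl_low _ _ (by linarith : 1 - 3 * s ≤ 1 / 5),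
      pl_mid _ _ (by linarith : 1 / 5 ≤ s) (by linarith)]
    rw [abs_of_nonpos (by linarith : s - 2 / 5 ≤ 0)] at hd2
    linarith
  rcases le_total s (2 / 5) with h8 | h8
  · rw [min_eq_right (by linarith : 1 - 2 * s ≤ 2 * s), abs_of_nonpos (by linarith : 1 - 3 * s ≤ 0),
      min_eq_right (by linarith : -(1 - 3 * s) ≤ 3 * s),
      pl_mid _ _ (by linarith : 1 / 5 ≤ 1 - 2 * s) (by linarith),
      pl_mid _ _ (by linarith : 1 / 5 ≤ s) (by linarith),
      pl_low _ _ (by linarith : -(1 - 3 * s) ≤ 1 / 5),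
      pl_mid _ _ (by linarith : 1 / 5 ≤ s) (by linarith)]
    rw [abs_of_nonpos (by linarith : s - 2 / 5 ≤ 0)] at hd2
    linarith
  rcases le_total s (7 / 15) with h9 | h9
  · rw [min_eq_right (by linarith : 1 - 2 * s ≤ 2 * s), abs_of_nonpos (by linarith : 1 - 3 * s ≤ 0),
      min_eq_right (by linarith : -(1 - 3 * s) ≤ 3 * s),
      pl_low _ _ (by linarith : 1 - 2 * s ≤ 1 / 5),
      pl_high _ _ (by linarith : 2 / 5 ≤ s),
      pl_mid _ _ (by linarith : 1 / 5 ≤ -(1 - 3 * s)) (by linarith),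
      pl_high _ _ (by linarith : 2 / 5 ≤ s)]
    rw [abs_of_nonneg (by linarith : 0 ≤ s - 2 / 5)] at hd2
    linarith
  · rw [min_eq_right (by linarith : 1 - 2 * s ≤ 2 * s), abs_of_nonpos (by linarith : 1 - 3 * s ≤ 0),
      min_eq_right (by linarith : -(1 - 3 * s) ≤ 3 * s),
      pl_low _ _ (by linarith : 1 - 2 * s ≤ 1 / 5),
      pl_high _ _ (by linarith : 2 / 5 ≤ s),
      pl_high _ _ (by linarith : 2 / 5 ≤ -(1 - 3 * s)),
      pl_high _ _ (by linarith : 2 / 5 ≤ s)]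
    rw [abs_of_nonneg (by linarith : 0 ≤ s - 2 / 5)] at hd2
    linarith

end Pool.Agent.K3h16.CO
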