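import Pool.Agent.K3h16.CO.Cert

set_option autoImplicit false

open MeasureTheory

namespace Pool.Agent.K3h16.CO

/-- supergradient of a concave function at an interior point -/
lemma exists_supergradient {S : Set ℝ} {φ : ℝ → ℝ} (hc : ConcaveOn ℝ S φ) {l x r : ℝ}
    (hl : l ∈ S) (hx : x ∈ S) (hr : r ∈ S) (hlx : l < x) (hxr : x < r) :
    ∃ a : ℝ, (∀ s ∈ S, φ s ≤ φ x + a * (s - x)) ∧
      (φ r - φ x) / (r - x) ≤ a ∧ a ≤ (φ x - φ l) / (x - l) := by
  set A : Set ℝ := (fun s => (φ x - φ s) / (x - s)) '' {s | s ∈ S ∧ s < x} with hA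
  have hne : A.Nonempty := ⟨_, ⟨l, ⟨hl, hlx⟩, rfl⟩⟩
  have hlow : ∀ z ∈ S, x < z → ∀ w ∈ A, (φ z - φ x) / (z - x) ≤ w := by
    rintro z hz hxz w ⟨s, ⟨hs, hsx⟩, rfl⟩
    exact hc.slope_anti_adjacent hs hz hsx hxz
  have hbdd : BddBelow A := ⟨_, fun w hw => hlow r hr hxr w hw⟩
  refine ⟨sInf A, ?_, ?_, ?_⟩
  · intro s hs
    rcases lt_trichotomy s x with h | h | h
    · have h1 : sInf A ≤ (φ x - φ s) / (x - s) := csInf_le hbdd ⟨s, ⟨hs, h⟩, rfl⟩
      rw [le_div_iff₀ (by linarith)] at h1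
      linarith
    · subst h; simp
    · have h1 : (φ s - φ x) / (s - x) ≤ sInf A := le_csInf hne (hlow s hs h)
      rw [div_le_iff₀ (by linarith)] at h1
      linarith
  · exact le_csInf hne (hlow r hr hxr)
  · exact csInf_le hbdd ⟨l, ⟨hl, hlx⟩, rfl⟩

/-- supergradient of a strictly concave function is strict away from the point -/
lemma strict_supergradient {S : Set ℝ} {φ : ℝ → ℝ} (hc : StrictConcaveOn ℝ S φ) {x a : ℝ}
    (hx : x ∈ S) (h : ∀ s ∈ S, φ s ≤ φ x + a * (s - x)) :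
    ∀ s ∈ S, s ≠ x → φ s < φ x + a * (s - x) := by
  intro s hs hne
  rcases lt_or_eq_of_le (h s hs) with h1 | h1
  · exact h1
  exfalso
  have hmid : (1 / 2 : ℝ) • s + (1 / 2 : ℝ) • x ∈ S :=
    hc.1 hs hx (by norm_num) (by norm_num) (by norm_num)
  have h2 := hc.2 hs hx hne (show (0 : ℝ) < 1 / 2 by norm_num) (show (0 : ℝ) < 1 / 2 by norm_num)
    (by norm_num)
  have h3 := h _ hmid
  simp only [smul_eq_mul] at h2 h3
  rw [h1] at h2
  have : φ x + a * (1 / 2 * s + 1 / 2 * x - x) = 1 / 2 * (φ x + a * (s - x)) + 1 / 2 * φ x := by ring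
  linarith

/-- the two coefficients and the kink -/
lemma exists_majorant {φ : ℝ → ℝ} (hc : ConcaveOn ℝ (Set.Ioc 0 (1 / 2)) φ)
    (hm : MonotoneOn φ (Set.Ioc 0 (1 / 2))) :
    ∃ t d b : ℝ, 1 / 5 ≤ t ∧ t ≤ 2 / 5 ∧ 0 ≤ d ∧ 0 ≤ b ∧
      (∀ s ∈ Set.Ioc (0 : ℝ) (1 / 2), φ s ≤ φ (2 / 5) + b * (s - 2 / 5) - d * max (t - s) 0) ∧
      (φ (1 / 5) + φ (2 / 5)) / 2 = φ (2 / 5) + b * (3 / 10 - 2 / 5) - d * ((t - 1 / 5) / 2) ∧
      (StrictConcaveOn ℝ (Set.Ioc 0 (1 / 2)) φ → ∀ s ∈ Set.Ioc (0 : ℝ) (1 / 2), s ≠ 1 / 5 →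
        s ≠ 2 / 5 → φ s < φ (2 / 5) + b * (s - 2 / 5) - d * max (t - s) 0) := by
  have m1 : (1 / 10 : ℝ) ∈ Set.Ioc (0 : ℝ) (1 / 2) := ⟨by norm_num, by norm_num⟩
  have m2 : (1 / 5 : ℝ) ∈ Set.Ioc (0 : ℝ) (1 / 2) := ⟨by norm_num, by norm_num⟩
  have m3 : (2 / 5 : ℝ) ∈ Set.Ioc (0 : ℝ) (1 / 2) := ⟨by norm_num, by norm_num⟩
  have m4 : (1 / 2 : ℝ) ∈ Set.Ioc (0 : ℝ) (1 / 2) := ⟨by norm_num, by norm_num⟩
  obtain ⟨a, ha, ha1, -⟩ := exists_supergradient hc m1 m2 m3 (by norm_num) (by norm_num)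
  obtain ⟨b, hb, hb1, hb2⟩ := exists_supergradient hc m2 m3 m4 (by norm_num) (by norm_num)
  have hmono1 : φ (2 / 5) ≤ φ (1 / 2) := hm m3 m4 (by norm_num)
  have hb0 : 0 ≤ b := by
    refine le_trans ?_ hb1
    apply div_nonneg <;> linarith
  have hab : b ≤ a := by
    have e : (φ (2 / 5) - φ (1 / 5)) / (2 / 5 - 1 / 5) ≤ a := ha1
    exact hb2.trans e
  set c := (φ (2 / 5) - φ (1 / 5)) / (2 / 5 - 1 / 5) with hcdef
  have hc' : φ (2 / 5) - φ (1 / 5) = c / 5 := by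
    rw [hcdef]; ring
  rcases eq_or_lt_of_le hab with h | h
  · refine ⟨1 / 5, 0, b, le_refl _, by norm_num, le_refl _, hb0, ?_, ?_, ?_⟩
    · intro s hs
      have := hb s hs
      linarith
    · have : c = b := le_antisymm (ha1.trans h.symm.le) hb2
      rw [this] at hc'
      linarith
    · intro hs s hss _ h2
      have := strict_supergradient hs m3 hb s hss h2
      linarith
  · have hpos : 0 < a - b := by linarith
    have key : (a - b) * (1 / 5 + (c - b) / (5 * (a - b)) - 1 / 5) = (c - b) / 5 := by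
      field_simp
      ring
    set t := 1 / 5 + (c - b) / (5 * (a - b)) with ht
    have hcb : 0 ≤ c - b := by linarith
    have hca : c ≤ a := ha1
    have ht1 : 1 / 5 ≤ t := by
      rw [ht]
      have : 0 ≤ (c - b) / (5 * (a - b)) := by positivity
      linarith
    have ht2 : t ≤ 2 / 5 := by
      rw [ht]
      have : (c - b) / (5 * (a - b)) ≤ 1 / 5 := by
        rw [div_le_div_iff₀ (by positivity) (by norm_num)]
        nlinarith
      linarith
    have hline : ∀ s, φ (1 / 5) + a * (s - 1 / 5)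
        = φ (2 / 5) + b * (s - 2 / 5) - (a - b) * (t - s) := by
      intro s
      have h1 : (a - b) * (t - s) = (a - b) * (t - 1 / 5) - (a - b) * (s - 1 / 5) := by ring
      rw [h1, key]
      linarith
    refine ⟨t, a - b, b, ht1, ht2, hpos.le, hb0, ?_, ?_, ?_⟩
    · intro s hs
      rcases le_total s t with h' | h'
      · rw [max_eq_left (by linarith), ← hline s]
        exact ha s hs
      · rw [max_eq_right (by linarith)]
        have := hb s hs
        linarith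
    · have : (a - b) * ((t - 1 / 5) / 2) = (c - b) / 10 := by
        rw [← mul_div_assoc, key]; ring
      rw [this]
      linarith
    · intro hs s hss h1 h2
      rcases le_total s t with h' | h'
      · rw [max_eq_left (by linarith), ← hline s]
        exact strict_supergradient hs m2 ha s hss h1
      · rw [max_eq_right (by linarith)]
        have := strict_supergradient hs m3 hb s hss h2
        linarith

/-- **pointwise certificate** -/
theorem exists_cert {φ : ℝ → ℝ} (hc : ConcaveOn ℝ (Set.Ioc 0 (1 / 2)) φ)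
    (hm : MonotoneOn φ (Set.Ioc 0 (1 / 2))) (h0 : φ 0 ≤ φ (1 / 5)) :
    ∃ u v : UnitAddCircle → ℝ, Continuous u ∧ Continuous v ∧
      (∀ x : UnitAddCircle, φ ‖x‖ ≤ (φ (1 / 5) + φ (2 / 5)) / 2 + (u x - u (2 • x))
        + (v x - v (3 • x))) ∧
      (StrictConcaveOn ℝ (Set.Ioc 0 (1 / 2)) φ → ∀ x : UnitAddCircle,
        φ ‖x‖ = (φ (1 / 5) + φ (2 / 5)) / 2 + (u x - u (2 • x)) + (v x - v (3 • x)) →
        ‖x‖ = 1 / 5 ∨ ‖x‖ = 2 / 5) := by
  obtain ⟨t, d, b, ht1, ht2, hd, hb, h1, h2, h3⟩ := exists_majorant hc hm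
  have m2 : (1 / 5 : ℝ) ∈ Set.Ioc (0 : ℝ) (1 / 2) := ⟨by norm_num, by norm_num⟩
  have m3 : (2 / 5 : ℝ) ∈ Set.Ioc (0 : ℝ) (1 / 2) := ⟨by norm_num, by norm_num⟩
  have hmono : φ (1 / 5) ≤ φ (2 / 5) := hm m2 m3 (by norm_num)
  set u : UnitAddCircle → ℝ := fun x => b * pl (1 / 5) (1 / 4) ‖x‖
    + d * pl (1 / 10) (t / 2 - 1 / 15) ‖x‖ with hu
  set v : UnitAddCircle → ℝ := fun x => b * pl (1 / 20) (1 / 10) ‖x‖
    + d * pl (2 * t / 3 - 1 / 6) (2 * t / 3 - 1 / 10) ‖x‖ with hv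
  have hpt : ∀ x : UnitAddCircle, φ (2 / 5) + b * (‖x‖ - 2 / 5) - d * max (t - ‖x‖) 0 ≤
      (φ (1 / 5) + φ (2 / 5)) / 2 + (u x - u (2 • x)) + (v x - v (3 • x)) := by
    intro x
    have c1 := cert1_real ht1 ht2 (norm_nonneg x) (norm_le_half x)
    have c2 := cert2_real (norm_nonneg x) (norm_le_half x)
    have hmin : 0 ≤ min |‖x‖ - 1 / 5| |‖x‖ - 2 / 5| := le_min (abs_nonneg _) (abs_nonneg _)
    simp only [hu, hv]
    rw [norm_two_smul, norm_three_smul, h2]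
    have c1' := mul_le_mul_of_nonneg_left c1 hd
    have c2' := mul_le_mul_of_nonneg_left c2 hb
    have c3' := mul_nonneg hb hmin
    linarith
  have hnx : ∀ x : UnitAddCircle, x ≠ 0 → ‖x‖ ∈ Set.Ioc (0 : ℝ) (1 / 2) := fun x hx =>
    ⟨norm_pos_iff.2 hx, norm_le_half x⟩
  have cpl : ∀ p q : ℝ, Continuous (fun x : UnitAddCircle => pl p q ‖x‖) := fun p q =>
    (continuous_pl p q).comp continuous_norm
  refine ⟨u, v, ?_, ?_, ?_, ?_⟩
  · exact ((cpl _ _).const_mul _).add ((cpl _ _).const_mul _)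
  · exact ((cpl _ _).const_mul _).add ((cpl _ _).const_mul _)
  · intro x
    by_cases hx : x = 0
    · subst hx
      simp only [norm_zero, smul_zero, sub_self, add_zero]
      linarith
    · exact (h1 _ (hnx x hx)).trans (hpt x)
  · intro hs x he
    by_cases hx : x = 0
    · exfalso
      subst hx
      simp only [norm_zero, smul_zero, sub_self, add_zero] at he
      have h4 : φ (1 / 5) = φ (2 / 5) := by linarith
      have m2' : (3 / 10 : ℝ) ∈ Set.Ioc (0 : ℝ) (1 / 2) := ⟨by norm_num, by norm_num⟩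
      have h5 := hs.2 m2 m3 (by norm_num) (show (0 : ℝ) < 1 / 2 by norm_num)
        (show (0 : ℝ) < 1 / 2 by norm_num) (by norm_num)
      have h6 : (1 / 2 : ℝ) • (1 / 5 : ℝ) + (1 / 2 : ℝ) • (2 / 5 : ℝ) = 3 / 10 := by norm_num
      rw [h6] at h5
      have h7 : φ (3 / 10) ≤ φ (2 / 5) := hm m2' m3 (by norm_num)
      simp only [smul_eq_mul] at h5
      linarith
    · by_contra hcon
      push Not at hcon
      have := h3 hs _ (hnx x hx) hcon.1 hcon.2
      have := hpt x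
      linarith

end Pool.Agent.K3h16.CO
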