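import Pool.Agent.K3h16.CO.Main

set_option autoImplicit false

open MeasureTheory

namespace Pool.Agent.K3h16.CO

/-- the point `k / 5` of the circle -/
noncomputable def pt (k : ℕ) : UnitAddCircle := (((k : ℝ) / 5 : ℝ) : UnitAddCircle)

/-- the uniform probability measure on the periodic orbit `{1/5, 2/5, 3/5, 4/5}` -/
noncomputable def mu5 : Measure UnitAddCircle :=
  (1 / 4 : ENNReal) • ∑ k ∈ Finset.Icc 1 4, Measure.dirac (pt k)

/-- `×2`, `×3`-invariant probability measures on the circle -/
def Inv (μ : Measure UnitAddCircle) : Prop :=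
  IsProbabilityMeasure μ ∧ MeasurePreserving (fun x : UnitAddCircle => 2 • x) μ μ ∧
    MeasurePreserving (fun x : UnitAddCircle => 3 • x) μ μ

lemma pt_two (k l : ℕ) (n : ℤ) (h : (2 * k : ℤ) = l + 5 * n) : 2 • pt k = pt l := by
  unfold pt
  rw [← AddCircle.coe_nsmul]
  have : (2 • ((k : ℝ) / 5) : ℝ) = (l : ℝ) / 5 + n := by
    have h' : (2 * k : ℝ) = l + 5 * n := by exact_mod_cast h
    rw [nsmul_eq_mul]; push_cast; linarith
  rw [this, AddCircle.coe_add, coe_int, add_zero]

lemma pt_three (k l : ℕ) (n : ℤ) (h : (3 * k : ℤ) = l + 5 * n) : 3 • pt k = pt l := by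
  unfold pt
  rw [← AddCircle.coe_nsmul]
  have : (3 • ((k : ℝ) / 5) : ℝ) = (l : ℝ) / 5 + n := by
    have h' : (3 * k : ℝ) = l + 5 * n := by exact_mod_cast h
    rw [nsmul_eq_mul]; push_cast; linarith
  rw [this, AddCircle.coe_add, coe_int, add_zero]

lemma norm_pt (k : ℕ) (hk : k ≤ 2) : ‖pt k‖ = k / 5 := by
  unfold pt
  have : (k : ℝ) ≤ 2 := by exact_mod_cast hk
  rw [norm_coe_of_abs_le]
  · exact abs_of_nonneg (by positivity)
  · rw [abs_of_nonneg (by positivity)]; linarith

lemma norm_pt' (k : ℕ) (hk : 3 ≤ k) (hk' : k ≤ 5) : ‖pt k‖ = 1 - k / 5 := by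
  unfold pt
  have h1 : (3 : ℝ) ≤ k := by exact_mod_cast hk
  have h2 : (k : ℝ) ≤ 5 := by exact_mod_cast hk'
  rw [← norm_coe_sub_int _ 1]
  push_cast
  rw [norm_coe_of_abs_le]
  · rw [abs_of_nonpos (by linarith)]; ring
  · rw [abs_of_nonpos (by linarith)]; linarith

lemma mu5_eq : mu5 = (1 / 4 : ENNReal) • (Measure.dirac (pt 1) + Measure.dirac (pt 2)
    + Measure.dirac (pt 3) + Measure.dirac (pt 4)) := by
  unfold mu5
  congr 1
  rw [show Finset.Icc 1 4 = ({1, 2, 3, 4} : Finset ℕ) by rfl]
  simp [add_assoc]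

lemma meas_two : Measurable (fun x : UnitAddCircle => 2 • x) := (continuous_nsmul 2).measurable

lemma meas_three : Measurable (fun x : UnitAddCircle => 3 • x) := (continuous_nsmul 3).measurable

lemma inv_mu5 : Inv mu5 := by
  refine ⟨⟨?_⟩, ⟨meas_two, ?_⟩, ⟨meas_three, ?_⟩⟩
  · rw [mu5_eq]
    simp only [Measure.smul_apply, Measure.add_apply, measure_univ, smul_eq_mul]
    norm_num
    rw [ENNReal.inv_mul_cancel] <;> norm_num
  · rw [mu5_eq, Measure.map_smul, Measure.map_add _ _ meas_two, Measure.map_add _ _ meas_two,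
      Measure.map_add _ _ meas_two, Measure.map_dirac' meas_two, Measure.map_dirac' meas_two,
      Measure.map_dirac' meas_two, Measure.map_dirac' meas_two, pt_two 1 2 0 (by norm_num),
      pt_two 2 4 0 (by norm_num), pt_two 3 1 1 (by norm_num), pt_two 4 3 1 (by norm_num)]
    congr 1
    abel
  · rw [mu5_eq, Measure.map_smul, Measure.map_add _ _ meas_three, Measure.map_add _ _ meas_three,
      Measure.map_add _ _ meas_three, Measure.map_dirac' meas_three, Measure.map_dirac' meas_three,
      Measure.map_dirac' meas_three, Measure.map_dirac' meas_three, pt_three 1 3 0 (by norm_num),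
      pt_three 2 1 1 (by norm_num), pt_three 3 4 1 (by norm_num), pt_three 4 2 2 (by norm_num)]
    congr 1
    abel

lemma integrable_mu5 (f : UnitAddCircle → ℝ) : Integrable f mu5 := by
  rw [mu5_eq]
  apply Integrable.smul_measure _ (by norm_num)
  have h : ∀ a : UnitAddCircle, Integrable f (Measure.dirac a) := by
    intro a
    apply integrable_dirac
    simp
  exact (((h _).add_measure (h _)).add_measure (h _)).add_measure (h _)

lemma integral_mu5 (f : UnitAddCircle → ℝ) :
    ∫ x, f x ∂mu5 = (f (pt 1) + f (pt 2) + f (pt 3) + f (pt 4)) / 4 := by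
  have h : ∀ a : UnitAddCircle, Integrable f (Measure.dirac a) := by
    intro a
    apply integrable_dirac
    simp
  rw [mu5_eq, integral_smul_measure, integral_add_measure _ (h _), integral_add_measure _ (h _),
    integral_add_measure (h _) (h _)]
  · simp only [integral_dirac, smul_eq_mul]
    norm_num
    ring
  · exact (h _).add_measure (h _)
  · exact ((h _).add_measure (h _)).add_measure (h _)

lemma integral_norm_mu5 (φ : ℝ → ℝ) :
    ∫ x, φ ‖x‖ ∂mu5 = (φ (1 / 5) + φ (2 / 5)) / 2 := by
  rw [integral_mu5 (fun x => φ ‖x‖), norm_pt 1 (by norm_num), norm_pt 2 (by norm_num), norm_pt' 3 (by norm_num) (by norm_num),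
    norm_pt' 4 (by norm_num) (by norm_num)]
  norm_num
  ring

lemma integral_comp_two {μ : Measure UnitAddCircle} (hμ : Inv μ) {u : UnitAddCircle → ℝ}
    (hu : Continuous u) : ∫ x, u (2 • x) ∂μ = ∫ x, u x ∂μ := by
  have h := hμ.2.1
  conv_rhs => rw [← h.map_eq]
  rw [integral_map h.measurable.aemeasurable hu.aestronglyMeasurable]

lemma integral_comp_three {μ : Measure UnitAddCircle} (hμ : Inv μ) {u : UnitAddCircle → ℝ}
    (hu : Continuous u) : ∫ x, u (3 • x) ∂μ = ∫ x, u x ∂μ := by
  have h := hμ.2.2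
  conv_rhs => rw [← h.map_eq]
  rw [integral_map h.measurable.aemeasurable hu.aestronglyMeasurable]

lemma integrable_cont {μ : Measure UnitAddCircle} [IsFiniteMeasure μ] {u : UnitAddCircle → ℝ}
    (hu : Continuous u) : Integrable u μ := by
  obtain ⟨C, hC⟩ := isCompact_univ.exists_bound_of_continuousOn hu.continuousOn
  exact Integrable.of_bound hu.aestronglyMeasurable C (Filter.Eventually.of_forall fun x => hC x trivial)

/-- integrating a certificate -/
lemma integral_le_of_cert {μ : Measure UnitAddCircle} (hμ : Inv μ) {g u v : UnitAddCircle → ℝ}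
    {c : ℝ} (hu : Continuous u) (hv : Continuous v) (hg : Integrable g μ)
    (h : ∀ x, g x ≤ c + (u x - u (2 • x)) + (v x - v (3 • x))) :
    ∫ x, g x ∂μ ≤ c ∧ (∫ x, g x ∂μ = c →
      ∀ᵐ x ∂μ, g x = c + (u x - u (2 • x)) + (v x - v (3 • x))) := by
  have := hμ.1
  have hu2 : Continuous (fun x : UnitAddCircle => u (2 • x)) := hu.comp (continuous_nsmul 2)
  have hv2 : Continuous (fun x : UnitAddCircle => v (3 • x)) := hv.comp (continuous_nsmul 3)
  have hR : Continuous (fun x : UnitAddCircle => c + (u x - u (2 • x)) + (v x - v (3 • x))) := by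
    fun_prop
  have hRi : Integrable (fun x : UnitAddCircle => c + (u x - u (2 • x)) + (v x - v (3 • x))) μ :=
    integrable_cont hR
  have hint : ∫ x, (c + (u x - u (2 • x)) + (v x - v (3 • x))) ∂μ = c := by
    rw [integral_add, integral_add, integral_sub, integral_sub, integral_comp_two hμ hu,
      integral_comp_three hμ hv]
    · simp
    · exact integrable_cont hv
    · exact integrable_cont hv2
    · exact integrable_cont hu
    · exact integrable_cont hu2
    · exact integrable_const _
    · exact (integrable_cont hu).sub (integrable_cont hu2)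
    · exact (integrable_const _).add ((integrable_cont hu).sub (integrable_cont hu2))
    · exact (integrable_cont hv).sub (integrable_cont hv2)
  refine ⟨?_, ?_⟩
  · rw [← hint]
    exact integral_mono hg hRi h
  · intro he
    have h1 : ∫ x, ((c + (u x - u (2 • x)) + (v x - v (3 • x))) - g x) ∂μ = 0 := by
      rw [integral_sub hRi hg, hint, he, sub_self]
    have h2 := (integral_eq_zero_iff_of_nonneg (fun x => sub_nonneg.2 (h x)) (hRi.sub hg)).1 h1
    filter_upwards [h2] with x hx
    simp only [Pi.zero_apply] at hx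
    linarith

/-- a measure carried by the points of norm `1/5` and `2/5` -/
lemma eq_mu5_of_ae {μ : Measure UnitAddCircle} (hμ : Inv μ)
    (h : ∀ᵐ x ∂μ, ‖x‖ = 1 / 5 ∨ ‖x‖ = 2 / 5) : μ = mu5 := by
  have := hμ.1
  have hset : ∀ x : UnitAddCircle, (‖x‖ = 1 / 5 ∨ ‖x‖ = 2 / 5) →
      x = pt 1 ∨ x = pt 2 ∨ x = pt 3 ∨ x = pt 4 := by
    intro x hx
    have e4 : ((-(1 / 5) : ℝ) : UnitAddCircle) = pt 4 := by
      unfold pt
      have : ((4 : ℕ) : ℝ) / 5 = -(1 / 5) + (1 : ℤ) := by norm_num
      rw [this, AddCircle.coe_add, coe_int, add_zero]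
    have e3 : ((-(2 / 5) : ℝ) : UnitAddCircle) = pt 3 := by
      unfold pt
      have : ((3 : ℕ) : ℝ) / 5 = -(2 / 5) + (1 : ℤ) := by norm_num
      rw [this, AddCircle.coe_add, coe_int, add_zero]
    have e1 : ((1 / 5 : ℝ) : UnitAddCircle) = pt 1 := by
      unfold pt; norm_num
    have e2 : ((2 / 5 : ℝ) : UnitAddCircle) = pt 2 := by
      unfold pt; norm_num
    rcases hx with hx | hx
    · rcases exists_rep x with h1 | h1
      · left; rw [h1, hx, e1]
      · right; right; right; rw [h1, hx, e4]
    · rcases exists_rep x with h1 | h1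
      · right; left; rw [h1, hx, e2]
      · right; right; left; rw [h1, hx, e3]
  -- masses
  have hstep : ∀ x : UnitAddCircle, μ {x} ≤ μ {2 • x} := by
    intro x
    have := hμ.2.1.measure_preimage (measurableSet_singleton (2 • x)).nullMeasurableSet
    rw [← this]
    apply measure_mono
    intro y hy
    rw [Set.mem_singleton_iff.1 hy]
    simp
  have a12 : μ {pt 1} ≤ μ {pt 2} := by
    have := hstep (pt 1); rwa [pt_two 1 2 0 (by norm_num)] at this
  have a24 : μ {pt 2} ≤ μ {pt 4} := by
    have := hstep (pt 2); rwa [pt_two 2 4 0 (by norm_num)] at this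
  have a43 : μ {pt 4} ≤ μ {pt 3} := by
    have := hstep (pt 4); rwa [pt_two 4 3 1 (by norm_num)] at this
  have a31 : μ {pt 3} ≤ μ {pt 1} := by
    have := hstep (pt 3); rwa [pt_two 3 1 1 (by norm_num)] at this
  have b2 : μ {pt 2} = μ {pt 1} := le_antisymm (a24.trans (a43.trans a31)) a12
  have b4 : μ {pt 4} = μ {pt 1} := le_antisymm (a43.trans a31) (a12.trans a24)
  have b3 : μ {pt 3} = μ {pt 1} := le_antisymm a31 (a12.trans (a24.trans a43))
  -- distinct points
  have hne : ∀ k l : ℕ, k ≤ 4 → l ≤ 4 → pt k = pt l → k = l := by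
    intro k l hk hl hkl
    unfold pt at hkl
    have := (AddCircle.coe_eq_coe_iff_of_mem_Ico (p := (1 : ℝ)) (a := 0) (x := (k : ℝ) / 5)
      (y := (l : ℝ) / 5) ⟨by positivity, by
        have : (k : ℝ) ≤ 4 := by exact_mod_cast hk
        rw [zero_add]; linarith⟩ ⟨by positivity, by
        have : (l : ℝ) ≤ 4 := by exact_mod_cast hl
        rw [zero_add]; linarith⟩).1 hkl
    have h' : (k : ℝ) = l := by linarith
    exact_mod_cast h'
  have n12 : pt 1 ≠ pt 2 := fun h => absurd (hne 1 2 (by norm_num) (by norm_num) h) (by norm_num)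
  have n13 : pt 1 ≠ pt 3 := fun h => absurd (hne 1 3 (by norm_num) (by norm_num) h) (by norm_num)
  have n14 : pt 1 ≠ pt 4 := fun h => absurd (hne 1 4 (by norm_num) (by norm_num) h) (by norm_num)
  have n23 : pt 2 ≠ pt 3 := fun h => absurd (hne 2 3 (by norm_num) (by norm_num) h) (by norm_num)
  have n24 : pt 2 ≠ pt 4 := fun h => absurd (hne 2 4 (by norm_num) (by norm_num) h) (by norm_num)
  have n34 : pt 3 ≠ pt 4 := fun h => absurd (hne 3 4 (by norm_num) (by norm_num) h) (by norm_num)
  set F : Finset UnitAddCircle := {pt 1, pt 2, pt 3, pt 4} with hF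
  have hFc : μ (F : Set UnitAddCircle)ᶜ = 0 := by
    rw [← compl_compl ((F : Set UnitAddCircle)ᶜ)]
    have : ∀ᵐ x ∂μ, x ∈ (F : Set UnitAddCircle) := by
      filter_upwards [h] with x hx
      rcases hset x hx with h1 | h1 | h1 | h1 <;> simp [hF, h1]
    rw [compl_compl]
    exact this
  have hFm : μ (F : Set UnitAddCircle) = 1 := by
    have h1 := measure_add_measure_compl (μ := μ) F.measurableSet
    rw [hFc, add_zero, measure_univ] at h1
    exact h1
  have hsum : ∑ x ∈ F, μ {x} = 1 := by
    rw [sum_measure_singleton, hFm]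
  have hsum' : μ {pt 1} + (μ {pt 2} + (μ {pt 3} + μ {pt 4})) = 1 := by
    rw [hF, Finset.sum_insert, Finset.sum_insert, Finset.sum_insert, Finset.sum_singleton] at hsum
    · exact hsum
    · simpa using n34
    · simp [n23, n24]
    · simp [n12, n13, n14]
  have hq : μ {pt 1} = 1 / 4 := by
    rw [b2, b3, b4] at hsum'
    have h4 : 4 * μ {pt 1} = 1 := by rw [← hsum']; ring
    rw [one_div]
    exact ENNReal.eq_inv_of_mul_eq_one_left (by rw [mul_comm]; exact h4)
  ext A hA
  have h1 : μ A = μ (A ∩ F) := by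
    rw [measure_inter_conull hFc]
  have h2 : μ (A ∩ F) = ∑ x ∈ F, A.indicator (fun _ => (1 / 4 : ENNReal)) x := by
    classical
    have h3 : A ∩ (F : Set UnitAddCircle) = ((F.filter (· ∈ A) : Finset UnitAddCircle) : Set _) := by
      ext x; simp [and_comm]
    rw [h3, ← sum_measure_singleton, Finset.sum_filter]
    apply Finset.sum_congr rfl
    intro x hx
    by_cases hxA : x ∈ A
    · simp only [hxA, if_true, Set.indicator_of_mem]
      rw [hF] at hx
      simp only [Finset.mem_insert, Finset.mem_singleton] at hx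
      rcases hx with hx | hx | hx | hx <;> rw [hx]
      · exact hq
      · rw [b2]; exact hq
      · rw [b3]; exact hq
      · rw [b4]; exact hq
    · simp [hxA]
  rw [h1, h2, mu5_eq, hF, Finset.sum_insert, Finset.sum_insert, Finset.sum_insert,
    Finset.sum_singleton]
  · classical
    simp only [Measure.smul_apply, Measure.add_apply, Measure.dirac_apply' _ hA, smul_eq_mul]
    rw [mul_add, mul_add, mul_add]
    simp only [Set.indicator_apply, Pi.one_apply, mul_ite, mul_one, mul_zero, add_assoc]
  · simpa using n34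
  · simp [n23, n24]
  · simp [n12, n13, n14]

end Pool.Agent.K3h16.CO
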