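import Pool.Agent.K3h16.CO.Meas

set_option autoImplicit false

open MeasureTheory

namespace Pool.Agent.K3h16.CO

/-- main inequality, general form -/
theorem main_ineq {φ : ℝ → ℝ} (hc : ConcaveOn ℝ (Set.Ioc 0 (1 / 2)) φ)
    (hm : MonotoneOn φ (Set.Ioc 0 (1 / 2))) (h0 : φ 0 ≤ φ (1 / 5)) {μ : Measure UnitAddCircle}
    (hμ : Inv μ) (hi : Integrable (fun x : UnitAddCircle => φ ‖x‖) μ) :
    ∫ x, φ ‖x‖ ∂μ ≤ (φ (1 / 5) + φ (2 / 5)) / 2 ∧
      (StrictConcaveOn ℝ (Set.Ioc 0 (1 / 2)) φ →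
        ∫ x, φ ‖x‖ ∂μ = (φ (1 / 5) + φ (2 / 5)) / 2 → μ = mu5) := by
  obtain ⟨u, v, hu, hv, h1, h2⟩ := exists_cert hc hm h0
  obtain ⟨h3, h4⟩ := integral_le_of_cert hμ hu hv hi h1
  refine ⟨h3, fun hs he => eq_mu5_of_ae hμ ?_⟩
  filter_upwards [h4 he] with x hx
  exact h2 hs x hx

lemma measurable_phi {φ : ℝ → ℝ} (hm : MonotoneOn φ (Set.Icc 0 (1 / 2))) :
    Measurable (fun x : UnitAddCircle => φ ‖x‖) := by
  have h1 : Monotone (fun s : ℝ => φ (max 0 (min s (1 / 2)))) := by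
    intro a b hab
    apply hm
    · exact ⟨le_max_left _ _, max_le (by norm_num) (min_le_right _ _)⟩
    · exact ⟨le_max_left _ _, max_le (by norm_num) (min_le_right _ _)⟩
    · exact max_le_max (le_refl _) (min_le_min hab (le_refl _))
  have h2 : (fun x : UnitAddCircle => φ ‖x‖)
      = (fun s : ℝ => φ (max 0 (min s (1 / 2)))) ∘ (fun x : UnitAddCircle => ‖x‖) := by
    funext x
    simp only [Function.comp]
    rw [min_eq_left (norm_le_half x), max_eq_right (norm_nonneg x)]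
  rw [h2]
  exact h1.measurable.comp continuous_norm.measurable

lemma phi_bound {φ : ℝ → ℝ} (hm : MonotoneOn φ (Set.Icc 0 (1 / 2))) (x : UnitAddCircle) :
    ‖φ ‖x‖‖ ≤ |φ 0| + |φ (1 / 2)| := by
  have m0 : (0 : ℝ) ∈ Set.Icc (0 : ℝ) (1 / 2) := ⟨le_refl _, by norm_num⟩
  have m1 : (1 / 2 : ℝ) ∈ Set.Icc (0 : ℝ) (1 / 2) := ⟨by norm_num, le_refl _⟩
  have mx : ‖x‖ ∈ Set.Icc (0 : ℝ) (1 / 2) := ⟨norm_nonneg x, norm_le_half x⟩
  have h1 := hm m0 mx (norm_nonneg x)
  have h2 := hm mx m1 (norm_le_half x)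
  rw [Real.norm_eq_abs, abs_le]
  constructor
  · have := neg_abs_le (φ 0); have := abs_nonneg (φ (1 / 2)); linarith
  · have := le_abs_self (φ (1 / 2)); have := abs_nonneg (φ 0); linarith

lemma integrable_phi {φ : ℝ → ℝ} (hm : MonotoneOn φ (Set.Icc 0 (1 / 2)))
    (μ : Measure UnitAddCircle) [IsFiniteMeasure μ] :
    Integrable (fun x : UnitAddCircle => φ ‖x‖) μ :=
  Integrable.of_bound (measurable_phi hm).aestronglyMeasurable (|φ 0| + |φ (1 / 2)|)
    (Filter.Eventually.of_forall fun x => phi_bound hm x)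

lemma Ioc_sub : Set.Ioc (0 : ℝ) (1 / 2) ⊆ Set.Icc 0 (1 / 2) := Set.Ioc_subset_Icc_self

lemma zero_le_of_mono {φ : ℝ → ℝ} (hm : MonotoneOn φ (Set.Icc 0 (1 / 2))) : φ 0 ≤ φ (1 / 5) :=
  hm ⟨le_refl _, by norm_num⟩ ⟨by norm_num, by norm_num⟩ (by norm_num)

/-- main inequality, bounded form -/
theorem main_bounded {φ : ℝ → ℝ} (hc : ConcaveOn ℝ (Set.Icc 0 (1 / 2)) φ)
    (hm : MonotoneOn φ (Set.Icc 0 (1 / 2))) {μ : Measure UnitAddCircle} (hμ : Inv μ) :
    ∫ x, φ ‖x‖ ∂μ ≤ (φ (1 / 5) + φ (2 / 5)) / 2 := by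
  have := hμ.1
  exact (main_ineq (hc.subset Ioc_sub (convex_Ioc _ _)) (hm.mono Ioc_sub) (zero_le_of_mono hm) hμ
    (integrable_phi hm μ)).1

theorem main_bounded_eq {φ : ℝ → ℝ} (hc : StrictConcaveOn ℝ (Set.Icc 0 (1 / 2)) φ)
    (hm : MonotoneOn φ (Set.Icc 0 (1 / 2))) {μ : Measure UnitAddCircle} (hμ : Inv μ) :
    ∫ x, φ ‖x‖ ∂μ = (φ (1 / 5) + φ (2 / 5)) / 2 ↔ μ = mu5 := by
  have := hμ.1
  constructor
  · intro he
    exact (main_ineq (hc.concaveOn.subset Ioc_sub (convex_Ioc _ _)) (hm.mono Ioc_sub)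
      (zero_le_of_mono hm) hμ (integrable_phi hm μ)).2 (hc.subset Ioc_sub (convex_Ioc _ _)) he
  · rintro rfl
    exact integral_norm_mu5 φ

/-! ### linear forms in several invariant measures -/

lemma inv_linear {μ ν : Measure UnitAddCircle} (hμ : Inv μ) (hν : Inv ν) (m n : ℤ) :
    Inv ((μ.prod ν).map (fun p : UnitAddCircle × UnitAddCircle => m • p.1 + n • p.2)) := by
  have := hμ.1
  have := hν.1
  have hF : Measurable (fun p : UnitAddCircle × UnitAddCircle => m • p.1 + n • p.2) :=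
    (((continuous_zsmul m).comp continuous_fst).add ((continuous_zsmul n).comp continuous_snd)).measurable
  refine ⟨Measure.isProbabilityMeasure_map hF.aemeasurable, ⟨meas_two, ?_⟩, ⟨meas_three, ?_⟩⟩
  · rw [Measure.map_map meas_two hF]
    have h1 : (fun x : UnitAddCircle => 2 • x) ∘
        (fun p : UnitAddCircle × UnitAddCircle => m • p.1 + n • p.2) =
        (fun p : UnitAddCircle × UnitAddCircle => m • p.1 + n • p.2) ∘
        (Prod.map (fun x : UnitAddCircle => 2 • x) (fun x : UnitAddCircle => 2 • x)) := by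
      funext p
      simp only [Function.comp, Prod.map]
      rw [smul_add, smul_comm 2 m, smul_comm 2 n]
    have h2 := hμ.2.1.prod hν.2.1
    rw [h1, ← Measure.map_map hF h2.measurable]
    rw [h2.map_eq]
  · rw [Measure.map_map meas_three hF]
    have h1 : (fun x : UnitAddCircle => 3 • x) ∘
        (fun p : UnitAddCircle × UnitAddCircle => m • p.1 + n • p.2) =
        (fun p : UnitAddCircle × UnitAddCircle => m • p.1 + n • p.2) ∘
        (Prod.map (fun x : UnitAddCircle => 3 • x) (fun x : UnitAddCircle => 3 • x)) := by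
      funext p
      simp only [Function.comp, Prod.map]
      rw [smul_add, smul_comm 3 m, smul_comm 3 n]
    have h2 := hμ.2.2.prod hν.2.2
    rw [h1, ← Measure.map_map hF h2.measurable]
    rw [h2.map_eq]

theorem two_measures {φ : ℝ → ℝ} (hc : ConcaveOn ℝ (Set.Icc 0 (1 / 2)) φ)
    (hm : MonotoneOn φ (Set.Icc 0 (1 / 2))) {μ ν : Measure UnitAddCircle} (hμ : Inv μ)
    (hν : Inv ν) (m n : ℤ) :
    ∫ x, ∫ y, φ ‖m • x + n • y‖ ∂ν ∂μ ≤ (φ (1 / 5) + φ (2 / 5)) / 2 := by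
  have := hμ.1
  have := hν.1
  have hF : Measurable (fun p : UnitAddCircle × UnitAddCircle => m • p.1 + n • p.2) :=
    (((continuous_zsmul m).comp continuous_fst).add ((continuous_zsmul n).comp continuous_snd)).measurable
  have h1 := main_bounded hc hm (inv_linear hμ hν m n)
  have hmeas := measurable_phi hm
  rw [integral_map hF.aemeasurable hmeas.aestronglyMeasurable] at h1
  rw [integral_prod] at h1
  · exact h1
  · exact Integrable.of_bound (hmeas.comp hF).aestronglyMeasurable (|φ 0| + |φ (1 / 2)|)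
      (Filter.Eventually.of_forall fun p => phi_bound hm _)

/-! ### orbits of single points -/

theorem windows {φ : ℝ → ℝ} (hc : ConcaveOn ℝ (Set.Ioc 0 (1 / 2)) φ)
    (hm : MonotoneOn φ (Set.Ioc 0 (1 / 2))) (h0 : φ 0 ≤ φ (1 / 5)) :
    ∃ C : ℝ, ∀ (x : UnitAddCircle) (M N : ℕ),
      ∑ i ∈ Finset.range M, ∑ j ∈ Finset.range N, φ ‖(2 ^ i * 3 ^ j) • x‖ ≤
        (M * N : ℝ) * ((φ (1 / 5) + φ (2 / 5)) / 2) + C * (M + N) := by
  obtain ⟨u, v, hu, hv, h1, -⟩ := exists_cert hc hm h0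
  obtain ⟨A, hA⟩ := isCompact_univ.exists_bound_of_continuousOn hu.continuousOn
  obtain ⟨B, hB⟩ := isCompact_univ.exists_bound_of_continuousOn hv.continuousOn
  have hA0 : 0 ≤ A := (norm_nonneg _).trans (hA 0 trivial)
  have hB0 : 0 ≤ B := (norm_nonneg _).trans (hB 0 trivial)
  refine ⟨2 * A + 2 * B, fun x M N => ?_⟩
  have hpt : ∀ i j : ℕ, φ ‖(2 ^ i * 3 ^ j) • x‖ ≤ (φ (1 / 5) + φ (2 / 5)) / 2 +
      (u ((2 ^ i * 3 ^ j) • x) - u ((2 ^ (i + 1) * 3 ^ j) • x)) +
      (v ((2 ^ i * 3 ^ j) • x) - v ((2 ^ i * 3 ^ (j + 1)) • x)) := by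
    intro i j
    have h := h1 ((2 ^ i * 3 ^ j) • x)
    rw [smul_smul, smul_smul] at h
    have e1 : 2 * (2 ^ i * 3 ^ j) = 2 ^ (i + 1) * 3 ^ j := by ring
    have e2 : 3 * (2 ^ i * 3 ^ j) = 2 ^ i * 3 ^ (j + 1) := by ring
    rw [e1, e2] at h
    exact h
  calc ∑ i ∈ Finset.range M, ∑ j ∈ Finset.range N, φ ‖(2 ^ i * 3 ^ j) • x‖
      ≤ ∑ i ∈ Finset.range M, ∑ j ∈ Finset.range N, ((φ (1 / 5) + φ (2 / 5)) / 2 +
      (u ((2 ^ i * 3 ^ j) • x) - u ((2 ^ (i + 1) * 3 ^ j) • x)) +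
      (v ((2 ^ i * 3 ^ j) • x) - v ((2 ^ i * 3 ^ (j + 1)) • x))) :=
        Finset.sum_le_sum fun i _ => Finset.sum_le_sum fun j _ => hpt i j
    _ = (M * N : ℝ) * ((φ (1 / 5) + φ (2 / 5)) / 2)
        + ∑ j ∈ Finset.range N, (u ((2 ^ 0 * 3 ^ j) • x) - u ((2 ^ M * 3 ^ j) • x))
        + ∑ i ∈ Finset.range M, (v ((2 ^ i * 3 ^ 0) • x) - v ((2 ^ i * 3 ^ N) • x)) := by
        simp only [Finset.sum_add_distrib]
        congr 1
        · congr 1
          · simp; ring
          · rw [Finset.sum_comm]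
            apply Finset.sum_congr rfl
            intro j _
            exact Finset.sum_range_sub' (fun i => u ((2 ^ i * 3 ^ j) • x)) M
        · apply Finset.sum_congr rfl
          intro i _
          exact Finset.sum_range_sub' (fun j => v ((2 ^ i * 3 ^ j) • x)) N
    _ ≤ (M * N : ℝ) * ((φ (1 / 5) + φ (2 / 5)) / 2)
        + ∑ j ∈ Finset.range N, (2 * A) + ∑ i ∈ Finset.range M, (2 * B) := by
        gcongr with j hj i hi
        · have a1 := abs_le.1 (hA ((2 ^ 0 * 3 ^ j) • x) trivial)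
          have a2 := abs_le.1 (hA ((2 ^ M * 3 ^ j) • x) trivial)
          linarith [a1.1, a1.2, a2.1, a2.2]
        · have a1 := abs_le.1 (hB ((2 ^ i * 3 ^ 0) • x) trivial)
          have a2 := abs_le.1 (hB ((2 ^ i * 3 ^ N) • x) trivial)
          linarith [a1.1, a1.2, a2.1, a2.2]
    _ ≤ _ := by
        simp only [Finset.sum_const, Finset.card_range, nsmul_eq_mul]
        have hM : (0 : ℝ) ≤ M := Nat.cast_nonneg M
        have hN : (0 : ℝ) ≤ N := Nat.cast_nonneg N
        nlinarith [mul_nonneg hM hA0, mul_nonneg hN hB0, mul_nonneg hM hB0, mul_nonneg hN hA0]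

theorem finite_orbits {φ : ℝ → ℝ} (hc : ConcaveOn ℝ (Set.Ioc 0 (1 / 2)) φ)
    (hm : MonotoneOn φ (Set.Ioc 0 (1 / 2))) (h0 : φ 0 ≤ φ (1 / 5)) (O : Finset UnitAddCircle)
    (h2 : Set.BijOn (fun x : UnitAddCircle => 2 • x) O O)
    (h3 : Set.BijOn (fun x : UnitAddCircle => 3 • x) O O) :
    ∑ x ∈ O, φ ‖x‖ ≤ O.card * ((φ (1 / 5) + φ (2 / 5)) / 2) := by
  obtain ⟨u, v, hu, hv, h1, -⟩ := exists_cert hc hm h0
  have e2 : ∑ x ∈ O, u (2 • x) = ∑ x ∈ O, u x := by
    apply Finset.sum_bij (fun x _ => 2 • x)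
    · intro x hx; exact h2.mapsTo hx
    · intro x hx y hy hxy; exact h2.injOn hx hy hxy
    · intro y hy
      obtain ⟨x, hx, hxy⟩ := h2.surjOn hy
      exact ⟨x, hx, hxy⟩
    · intro x _; rfl
  have e3 : ∑ x ∈ O, v (3 • x) = ∑ x ∈ O, v x := by
    apply Finset.sum_bij (fun x _ => 3 • x)
    · intro x hx; exact h3.mapsTo hx
    · intro x hx y hy hxy; exact h3.injOn hx hy hxy
    · intro y hy
      obtain ⟨x, hx, hxy⟩ := h3.surjOn hy
      exact ⟨x, hx, hxy⟩
    · intro x _; rfl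
  calc ∑ x ∈ O, φ ‖x‖ ≤ ∑ x ∈ O, ((φ (1 / 5) + φ (2 / 5)) / 2 + (u x - u (2 • x))
        + (v x - v (3 • x))) := Finset.sum_le_sum fun x _ => h1 x
    _ = _ := by
        simp only [Finset.sum_add_distrib, Finset.sum_sub_distrib]
        rw [e2, e3]
        simp

/-! ### the logarithmic potential -/

/-- `log |1 - e(x)|` as a function of `‖x‖` -/
noncomputable def lg (s : ℝ) : ℝ := Real.log (2 * Real.sin (Real.pi * s))

lemma norm_one_sub_fourier (x : UnitAddCircle) :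
    ‖(1 : ℂ) - (fourier 1 x : ℂ)‖ = 2 * Real.sin (Real.pi * ‖x‖) := by
  have hs : 0 ≤ Real.sin (Real.pi * ‖x‖) := by
    apply Real.sin_nonneg_of_nonneg_of_le_pi
    · have := norm_nonneg x; positivity
    · have := norm_le_half x
      nlinarith [Real.pi_pos]
  have key : ∀ s : ℝ, ‖(1 : ℂ) - (fourier 1 (s : UnitAddCircle) : ℂ)‖ = |2 * Real.sin (Real.pi * s)| := by
    intro s
    rw [fourier_coe_apply, norm_sub_rev]
    have : (2 * Real.pi * Complex.I * (1 : ℤ) * s / (1 : ℝ) : ℂ)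
        = Complex.I * ((2 * Real.pi * s : ℝ) : ℂ) := by
      push_cast; ring
    rw [this, Complex.norm_exp_I_mul_ofReal_sub_one]
    rw [Real.norm_eq_abs]
    congr 3
    ring
  rcases exists_rep x with h | h
  · conv_lhs => rw [h]
    rw [key, abs_of_nonneg (by positivity)]
  · conv_lhs => rw [h]
    rw [key, mul_neg, Real.sin_neg, mul_neg, abs_neg, abs_of_nonneg (by positivity)]

lemma sin_pos' {s : ℝ} (h : s ∈ Set.Ioc (0 : ℝ) (1 / 2)) : 0 < Real.sin (Real.pi * s) := by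
  apply Real.sin_pos_of_pos_of_lt_pi
  · have := h.1; positivity
  · have := h.2
    nlinarith [Real.pi_pos]

lemma lg_mono : MonotoneOn lg (Set.Ioc 0 (1 / 2)) := by
  intro a ha b hb hab
  unfold lg
  apply Real.log_le_log
  · have := sin_pos' ha; positivity
  · have := Real.sin_le_sin_of_le_of_le_pi_div_two (x := Real.pi * a) (y := Real.pi * b)
      (by have := ha.1; nlinarith [Real.pi_pos]) (by have := hb.2; nlinarith [Real.pi_pos])
      (by nlinarith [Real.pi_pos])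
    linarith

lemma lg_strictConcave : StrictConcaveOn ℝ (Set.Ioc 0 (1 / 2)) lg := by
  refine ⟨convex_Ioc _ _, ?_⟩
  intro x hx y hy hxy a b ha hb hab
  have hx' := sin_pos' hx
  have hy' := sin_pos' hy
  have h1 := strictConcaveOn_sin_Icc.2 (x := Real.pi * x)
    ⟨by have := hx.1; positivity, by have := hx.2; nlinarith [Real.pi_pos]⟩ (y := Real.pi * y)
    ⟨by have := hy.1; positivity, by have := hy.2; nlinarith [Real.pi_pos]⟩
    (by intro h; exact hxy (mul_left_cancel₀ Real.pi_pos.ne' h)) ha hb hab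
  simp only [smul_eq_mul] at h1 ⊢
  have h2 := strictConcaveOn_log_Ioi.concaveOn.2 (x := 2 * Real.sin (Real.pi * x))
    (by simpa using hx') (y := 2 * Real.sin (Real.pi * y)) (by simpa using hy') ha.le hb.le hab
  simp only [smul_eq_mul] at h2
  unfold lg
  refine lt_of_le_of_lt h2 ?_
  apply Real.log_lt_log
  · positivity
  · have : Real.pi * (a * x + b * y) = a * (Real.pi * x) + b * (Real.pi * y) := by ring
    rw [this]
    linarith

lemma lg_zero : lg 0 ≤ lg (1 / 5) := by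
  unfold lg
  simp only [mul_zero, Real.sin_zero, Real.log_zero]
  apply Real.log_nonneg
  have h1 : Real.sin (Real.pi / 6) ≤ Real.sin (Real.pi * (1 / 5)) :=
    Real.sin_le_sin_of_le_of_le_pi_div_two (by nlinarith [Real.pi_pos]) (by nlinarith [Real.pi_pos])
      (by nlinarith [Real.pi_pos])
  rw [Real.sin_pi_div_six] at h1
  linarith

lemma lg_value : (lg (1 / 5) + lg (2 / 5)) / 2 = Real.log 5 / 4 := by
  unfold lg
  have p1 : 0 < Real.sin (Real.pi * (1 / 5)) := sin_pos' ⟨by norm_num, by norm_num⟩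
  have p2 : 0 < Real.sin (Real.pi * (2 / 5)) := sin_pos' ⟨by norm_num, by norm_num⟩
  rw [← Real.log_mul (by positivity) (by positivity)]
  have e : 2 * Real.sin (Real.pi * (1 / 5)) * (2 * Real.sin (Real.pi * (2 / 5))) = Real.sqrt 5 := by
    have h1 : Real.sin (Real.pi * (2 / 5))
        = 2 * Real.sin (Real.pi * (1 / 5)) * Real.cos (Real.pi * (1 / 5)) := by
      rw [← Real.sin_two_mul]; congr 1; ring
    have h2 : Real.cos (Real.pi * (1 / 5)) = (1 + Real.sqrt 5) / 4 := by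
      rw [← Real.cos_pi_div_five]; congr 1; ring
    have h3 := Real.sin_sq_add_cos_sq (Real.pi * (1 / 5))
    have h5 : Real.sqrt 5 ^ 2 = 5 := Real.sq_sqrt (by norm_num)
    rw [h2] at h3
    rw [h1, h2]
    have h4 : Real.sin (Real.pi * (1 / 5)) ^ 2 = 1 - ((1 + Real.sqrt 5) / 4) ^ 2 := by linarith
    have : 2 * Real.sin (Real.pi * (1 / 5)) * (2 * (2 * Real.sin (Real.pi * (1 / 5))
        * ((1 + Real.sqrt 5) / 4))) = 2 * Real.sin (Real.pi * (1 / 5)) ^ 2 * (1 + Real.sqrt 5) := by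
      ring
    rw [this, h4]
    linear_combination (-(3 + Real.sqrt 5) / 8) * h5
  rw [e, Real.log_sqrt (by norm_num)]
  ring

theorem log_potential {μ : Measure UnitAddCircle} (hμ : Inv μ)
    (hi : Integrable (fun x : UnitAddCircle => Real.log ‖(1 : ℂ) - (fourier 1 x : ℂ)‖) μ) :
    ∫ x, Real.log ‖(1 : ℂ) - (fourier 1 x : ℂ)‖ ∂μ ≤ Real.log 5 / 4 ∧
      (∫ x, Real.log ‖(1 : ℂ) - (fourier 1 x : ℂ)‖ ∂μ = Real.log 5 / 4 ↔ μ = mu5) := by
  have e : (fun x : UnitAddCircle => Real.log ‖(1 : ℂ) - (fourier 1 x : ℂ)‖)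
      = fun x => lg ‖x‖ := by
    funext x
    rw [norm_one_sub_fourier]
    rfl
  rw [e] at hi ⊢
  have h := main_ineq lg_strictConcave.concaveOn lg_mono lg_zero hμ hi
  rw [lg_value] at h
  refine ⟨h.1, h.2 lg_strictConcave, ?_⟩
  rintro rfl
  rw [integral_norm_mu5, lg_value]

theorem log_windows : ∃ C : ℝ, ∀ (x : UnitAddCircle) (M N : ℕ),
      ∑ i ∈ Finset.range M, ∑ j ∈ Finset.range N,
        Real.log ‖(1 : ℂ) - (fourier 1 ((2 ^ i * 3 ^ j) • x) : ℂ)‖ ≤
        (M * N : ℝ) * (Real.log 5 / 4) + C * (M + N) := by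
  obtain ⟨C, hC⟩ := windows lg_strictConcave.concaveOn lg_mono lg_zero
  refine ⟨C, fun x M N => ?_⟩
  have h := hC x M N
  rw [lg_value] at h
  refine le_trans (le_of_eq ?_) h
  refine Finset.sum_congr rfl fun i _ => Finset.sum_congr rfl fun j _ => ?_
  rw [norm_one_sub_fourier]
  rfl

theorem log_orbits (O : Finset UnitAddCircle)
    (h2 : Set.BijOn (fun x : UnitAddCircle => 2 • x) O O)
    (h3 : Set.BijOn (fun x : UnitAddCircle => 3 • x) O O) :
    ∏ x ∈ O, ‖(1 : ℂ) - (fourier 1 x : ℂ)‖ ≤ (5 : ℝ) ^ ((O.card : ℝ) / 4) := by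
  have h := finite_orbits lg_strictConcave.concaveOn lg_mono lg_zero O h2 h3
  rw [lg_value] at h
  by_cases h0 : ∃ x ∈ O, ‖(1 : ℂ) - (fourier 1 x : ℂ)‖ = 0
  · obtain ⟨x, hx, hx0⟩ := h0
    rw [Finset.prod_eq_zero hx hx0]
    positivity
  push Not at h0
  have hpos : 0 < ∏ x ∈ O, ‖(1 : ℂ) - (fourier 1 x : ℂ)‖ :=
    Finset.prod_pos fun x hx => lt_of_le_of_ne (norm_nonneg _) (Ne.symm (h0 x hx))
  rw [← Real.log_le_log_iff hpos (by positivity), Real.log_prod (fun x hx => h0 x hx),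
    Real.log_rpow (by norm_num)]
  refine le_trans (le_of_eq ?_) (h.trans (le_of_eq (by ring)))
  refine Finset.sum_congr rfl fun x _ => ?_
  rw [norm_one_sub_fourier]
  rfl

/-! ### phase locking -/

/-- distance of `‖x‖` from `{1/5, 2/5}` = distance of `x` from the orbit of `1/5` -/
noncomputable def dd (x : UnitAddCircle) : ℝ := min |‖x‖ - 1 / 5| |‖x‖ - 2 / 5|

lemma dd_nonneg (x : UnitAddCircle) : 0 ≤ dd x := le_min (abs_nonneg _) (abs_nonneg _)

/-- a Lipschitz function which vanishes on the orbit -/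
lemma le_dd {F : UnitAddCircle → ℝ} {K : NNReal} (hF : LipschitzWith K F)
    (h1 : F (pt 1) = 0) (h2 : F (pt 2) = 0) (h3 : F (pt 3) = 0) (h4 : F (pt 4) = 0)
    (x : UnitAddCircle) : F x ≤ K * dd x := by
  have e1 : ((1 / 5 : ℝ) : UnitAddCircle) = pt 1 := by unfold pt; norm_num
  have e2 : ((2 / 5 : ℝ) : UnitAddCircle) = pt 2 := by unfold pt; norm_num
  have e4 : ((-(1 / 5) : ℝ) : UnitAddCircle) = pt 4 := by
    unfold pt
    have : ((4 : ℕ) : ℝ) / 5 = -(1 / 5) + (1 : ℤ) := by norm_num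
    rw [this, AddCircle.coe_add, coe_int, add_zero]
  have e3 : ((-(2 / 5) : ℝ) : UnitAddCircle) = pt 3 := by
    unfold pt
    have : ((3 : ℕ) : ℝ) / 5 = -(2 / 5) + (1 : ℤ) := by norm_num
    rw [this, AddCircle.coe_add, coe_int, add_zero]
  have n0 := norm_nonneg x
  have n1 := norm_le_half x
  have gen : ∀ y : UnitAddCircle, F y = 0 → F x ≤ K * ‖x - y‖ := by
    intro y hy
    have h := hF.dist_le_mul x y
    rw [hy, Real.dist_eq, sub_zero, dist_eq_norm] at h
    exact (le_abs_self _).trans h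
  have a1 : F x ≤ K * |‖x‖ - 1 / 5| := by
    rcases exists_rep x with h | h
    · refine (gen _ h1).trans ?_
      gcongr
      conv_lhs => rw [h, ← e1, ← AddCircle.coe_sub]
      rw [norm_coe_of_abs_le]
      rw [abs_le]; constructor <;> linarith
    · refine (gen _ h4).trans ?_
      gcongr
      conv_lhs => rw [h, ← e4, ← AddCircle.coe_sub]
      have e : -‖x‖ - -(1 / 5) = -(‖x‖ - 1 / 5) := by ring
      rw [e, norm_coe_of_abs_le, abs_neg]
      rw [abs_neg, abs_le]; constructor <;> linarith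
  have a2 : F x ≤ K * |‖x‖ - 2 / 5| := by
    rcases exists_rep x with h | h
    · refine (gen _ h2).trans ?_
      gcongr
      conv_lhs => rw [h, ← e2, ← AddCircle.coe_sub]
      rw [norm_coe_of_abs_le]
      rw [abs_le]; constructor <;> linarith
    · refine (gen _ h3).trans ?_
      gcongr
      conv_lhs => rw [h, ← e3, ← AddCircle.coe_sub]
      have e : -‖x‖ - -(2 / 5) = -(‖x‖ - 2 / 5) := by ring
      rw [e, norm_coe_of_abs_le, abs_neg]
      rw [abs_neg, abs_le]; constructor <;> linarith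
  unfold dd
  rcases min_choice |‖x‖ - 1 / 5| |‖x‖ - 2 / 5| with h | h <;> rw [h] <;> assumption

lemma dist_pt (k l : ℕ) : dist (pt k) (pt l) = ‖((((k : ℝ) - l) / 5 : ℝ) : UnitAddCircle)‖ := by
  rw [dist_eq_norm]
  unfold pt
  rw [← AddCircle.coe_sub]
  congr 2
  ring

lemma dist_pt_small {k l : ℕ} (h : |(k : ℝ) - l| ≤ 2) : dist (pt k) (pt l) = |(k : ℝ) - l| / 5 := by
  rw [dist_pt, norm_coe_of_abs_le]
  · rw [abs_div]; norm_num
  · rw [abs_div, abs_of_pos (show (0 : ℝ) < 5 by norm_num)]; linarith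

lemma pt_inj {k l : ℕ} (hk : k ≤ 4) (hl : l ≤ 4) (hkl : pt k = pt l) : k = l := by
  unfold pt at hkl
  have := (AddCircle.coe_eq_coe_iff_of_mem_Ico (p := (1 : ℝ)) (a := 0) (x := (k : ℝ) / 5)
    (y := (l : ℝ) / 5) ⟨by positivity, by
      have : (k : ℝ) ≤ 4 := by exact_mod_cast hk
      rw [zero_add]; linarith⟩ ⟨by positivity, by
      have : (l : ℝ) ≤ 4 := by exact_mod_cast hl
      rw [zero_add]; linarith⟩).1 hkl
  have h' : (k : ℝ) = l := by linarith
  exact_mod_cast h'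

/-- extension of a function from the four points -/
lemma exists_ext (K : NNReal) (g1 g2 g3 g4 : ℝ) (h12 : |g1 - g2| ≤ K * (1 / 5))
    (h23 : |g2 - g3| ≤ K * (1 / 5)) (h34 : |g3 - g4| ≤ K * (1 / 5)) (h13 : |g1 - g3| ≤ K * (2 / 5))
    (h24 : |g2 - g4| ≤ K * (2 / 5)) (h14 : |g1 - g4| ≤ K * (2 / 5)) :
    ∃ G : UnitAddCircle → ℝ, LipschitzWith K G ∧ G (pt 1) = g1 ∧ G (pt 2) = g2 ∧ G (pt 3) = g3 ∧
      G (pt 4) = g4 := by
  classical
  have n21 : pt 2 ≠ pt 1 := fun h => absurd (pt_inj (by norm_num) (by norm_num) h) (by norm_num)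
  have n31 : pt 3 ≠ pt 1 := fun h => absurd (pt_inj (by norm_num) (by norm_num) h) (by norm_num)
  have n41 : pt 4 ≠ pt 1 := fun h => absurd (pt_inj (by norm_num) (by norm_num) h) (by norm_num)
  have n32 : pt 3 ≠ pt 2 := fun h => absurd (pt_inj (by norm_num) (by norm_num) h) (by norm_num)
  have n42 : pt 4 ≠ pt 2 := fun h => absurd (pt_inj (by norm_num) (by norm_num) h) (by norm_num)
  have n43 : pt 4 ≠ pt 3 := fun h => absurd (pt_inj (by norm_num) (by norm_num) h) (by norm_num)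
  have d12 : dist (pt 1) (pt 2) = 1 / 5 := by
    rw [dist_pt_small (by norm_num)]; norm_num
  have d23 : dist (pt 2) (pt 3) = 1 / 5 := by
    rw [dist_pt_small (by norm_num)]; norm_num
  have d34 : dist (pt 3) (pt 4) = 1 / 5 := by
    rw [dist_pt_small (by norm_num)]; norm_num
  have d13 : dist (pt 1) (pt 3) = 2 / 5 := by
    rw [dist_pt_small (by norm_num)]; norm_num
  have d24 : dist (pt 2) (pt 4) = 2 / 5 := by
    rw [dist_pt_small (by norm_num)]; norm_num
  have d14 : dist (pt 1) (pt 4) = 2 / 5 := by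
    rw [dist_pt, ← norm_coe_sub_int _ (-1)]
    rw [norm_coe_of_abs_le] <;> norm_num
  set g0 : UnitAddCircle → ℝ := fun x =>
    if x = pt 1 then g1 else if x = pt 2 then g2 else if x = pt 3 then g3 else g4 with hg0
  have v1 : g0 (pt 1) = g1 := by simp [hg0]
  have v2 : g0 (pt 2) = g2 := by simp [hg0, n21]
  have v3 : g0 (pt 3) = g3 := by simp [hg0, n31, n32]
  have v4 : g0 (pt 4) = g4 := by simp [hg0, n41, n42, n43]
  set S : Set UnitAddCircle := {pt 1, pt 2, pt 3, pt 4} with hS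
  have hL : LipschitzOnWith K g0 S := by
    apply LipschitzOnWith.of_dist_le_mul
    intro x hx y hy
    simp only [hS, Set.mem_insert_iff, Set.mem_singleton_iff] at hx hy
    rcases hx with rfl | rfl | rfl | rfl <;> rcases hy with rfl | rfl | rfl | rfl
    all_goals simp only [v1, v2, v3, v4, Real.dist_eq, dist_self, mul_zero, le_refl]
    · rwa [d12]
    · rwa [d13]
    · rwa [d14]
    · rwa [dist_comm, d12, abs_sub_comm]
    · rwa [d23]
    · rwa [d24]
    · rwa [dist_comm, d13, abs_sub_comm]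
    · rwa [dist_comm, d23, abs_sub_comm]
    · rwa [d34]
    · rwa [dist_comm, d14, abs_sub_comm]
    · rwa [dist_comm, d24, abs_sub_comm]
    · rwa [dist_comm, d34, abs_sub_comm]
  obtain ⟨G, hG, hGS⟩ := hL.extend_real
  refine ⟨G, hG, ?_, ?_, ?_, ?_⟩
  · rw [← hGS (by simp [hS]), v1]
  · rw [← hGS (by simp [hS]), v2]
  · rw [← hGS (by simp [hS]), v3]
  · rw [← hGS (by simp [hS]), v4]

/-- every Lipschitz function is cohomologous to a constant up to the distance to the orbit -/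
lemma lipschitz_cert {h : UnitAddCircle → ℝ} {K : NNReal} (hK : LipschitzWith K h) :
    ∃ G : UnitAddCircle → ℝ, Continuous G ∧ ∀ x : UnitAddCircle,
      h x ≤ (h (pt 1) + h (pt 2) + h (pt 3) + h (pt 4)) / 4 + (G x - G (2 • x))
        + 19 / 4 * K * dd x := by
  have d12 : dist (pt 1) (pt 2) = 1 / 5 := by
    rw [dist_pt_small (by norm_num)]; norm_num
  have d23 : dist (pt 2) (pt 3) = 1 / 5 := by
    rw [dist_pt_small (by norm_num)]; norm_num
  have d34 : dist (pt 3) (pt 4) = 1 / 5 := by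
    rw [dist_pt_small (by norm_num)]; norm_num
  have d13 : dist (pt 1) (pt 3) = 2 / 5 := by
    rw [dist_pt_small (by norm_num)]; norm_num
  have d24 : dist (pt 2) (pt 4) = 2 / 5 := by
    rw [dist_pt_small (by norm_num)]; norm_num
  have d14 : dist (pt 1) (pt 4) = 2 / 5 := by
    rw [dist_pt, ← norm_coe_sub_int _ (-1)]
    rw [norm_coe_of_abs_le] <;> norm_num
  have k12 := hK.dist_le_mul (pt 1) (pt 2)
  have k23 := hK.dist_le_mul (pt 2) (pt 3)
  have k34 := hK.dist_le_mul (pt 3) (pt 4)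
  have k13 := hK.dist_le_mul (pt 1) (pt 3)
  have k24 := hK.dist_le_mul (pt 2) (pt 4)
  have k14 := hK.dist_le_mul (pt 1) (pt 4)
  rw [d12, Real.dist_eq, abs_le] at k12
  rw [d23, Real.dist_eq, abs_le] at k23
  rw [d34, Real.dist_eq, abs_le] at k34
  rw [d13, Real.dist_eq, abs_le] at k13
  rw [d24, Real.dist_eq, abs_le] at k24
  rw [d14, Real.dist_eq, abs_le] at k14
  set H1 := h (pt 1) with hH1
  set H2 := h (pt 2) with hH2
  set H3 := h (pt 3) with hH3
  set H4 := h (pt 4) with hH4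
  set m := (H1 + H2 + H3 + H4) / 4 with hm
  have hK0 : (0 : ℝ) ≤ K := K.coe_nonneg
  have hcoe : ((5 / 4 * K : NNReal) : ℝ) = 5 / 4 * K := by push_cast; ring
  obtain ⟨G, hG, G1, G2, G3, G4⟩ := exists_ext (5 / 4 * K) 0 (m - H1) (H3 - m) (2 * m - H1 - H2)
    (by rw [hcoe, abs_le]; constructor <;> linarith [k12.1, k12.2, k13.1, k13.2, k14.1, k14.2])
    (by rw [hcoe, abs_le]; constructor <;> linarith [k12.1, k12.2, k34.1, k34.2])
    (by rw [hcoe, abs_le]; constructor <;> linarith [k14.1, k14.2, k24.1, k24.2, k34.1, k34.2])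
    (by rw [hcoe, abs_le]; constructor <;> linarith [k13.1, k13.2, k23.1, k23.2, k34.1, k34.2])
    (by rw [hcoe, abs_le]; constructor <;> linarith [k12.1, k12.2, k23.1, k23.2, k24.1, k24.2])
    (by rw [hcoe, abs_le]; constructor <;> linarith [k14.1, k14.2, k23.1, k23.2, k13.1, k13.2, k24.1, k24.2])
  refine ⟨G, hG.continuous, fun x => ?_⟩
  have hsm : LipschitzWith 2 (fun x : UnitAddCircle => 2 • x) := by
    apply LipschitzWith.of_dist_le_mul
    intro a b
    rw [dist_eq_norm, dist_eq_norm, ← smul_sub]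
    have := norm_nsmul_le (n := 2) (a := a - b)
    simpa using this
  set F : UnitAddCircle → ℝ := fun x => (h x - m) - (G x - G (2 • x)) with hF
  have hFL : LipschitzWith (19 / 4 * K) F := by
    have h1 : LipschitzWith K (fun x => h x - m) := by
      apply LipschitzWith.of_dist_le_mul
      intro a b
      have := hK.dist_le_mul a b
      simpa [Real.dist_eq] using this
    have h2 : LipschitzWith (5 / 4 * K * 2) (fun x => G (2 • x)) := hG.comp hsm
    have h3 := h1.sub (hG.sub h2)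
    refine h3.weaken ?_
    rw [← NNReal.coe_le_coe]
    push_cast
    linarith
  have hle := le_dd hFL (x := x) (by
      simp only [hF]; rw [pt_two 1 2 0 (by norm_num), G1, G2]; ring) (by
      simp only [hF]; rw [pt_two 2 4 0 (by norm_num), G2, G4]; ring) (by
      simp only [hF]; rw [pt_two 3 1 1 (by norm_num), G3, G1]; ring) (by
      simp only [hF]; rw [pt_two 4 3 1 (by norm_num), G4, G3, hm]; ring)
  simp only [hF] at hle
  push_cast at hle
  linarith

/-- **phase locking** -/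
theorem locking {a : ℝ} {h : UnitAddCircle → ℝ} {K : NNReal} (hK : LipschitzWith K h)
    (ha : 19 * K ≤ a) {μ : Measure UnitAddCircle} (hμ : Inv μ) :
    ∫ x, (a * ‖x‖ + h x) ∂μ ≤ ∫ x, (a * ‖x‖ + h x) ∂mu5 ∧
      (19 * K < a → ∫ x, (a * ‖x‖ + h x) ∂μ = ∫ x, (a * ‖x‖ + h x) ∂mu5 → μ = mu5) := by
  have := hμ.1
  have hK0 : (0 : ℝ) ≤ K := K.coe_nonneg
  have ha0 : 0 ≤ a := by linarith
  obtain ⟨G, hG, hle⟩ := lipschitz_cert hK
  set m := (h (pt 1) + h (pt 2) + h (pt 3) + h (pt 4)) / 4 with hm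
  have e5 : ∫ x, (a * ‖x‖ + h x) ∂mu5 = 3 / 10 * a + m := by
    rw [integral_mu5 (fun x => a * ‖x‖ + h x), norm_pt 1 (by norm_num), norm_pt 2 (by norm_num), norm_pt' 3 (by norm_num) (by norm_num),
      norm_pt' 4 (by norm_num) (by norm_num), hm]
    norm_num
    ring
  set u : UnitAddCircle → ℝ := fun x => a * pl (1 / 5) (1 / 4) ‖x‖ + G x with hu
  set v : UnitAddCircle → ℝ := fun x => a * pl (1 / 20) (1 / 10) ‖x‖ with hv
  have cpl : ∀ p q : ℝ, Continuous (fun x : UnitAddCircle => pl p q ‖x‖) := fun p q =>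
    (continuous_pl p q).comp continuous_norm
  have cu : Continuous u := ((cpl _ _).const_mul _).add hG
  have cv : Continuous v := (cpl _ _).const_mul _
  have hpt : ∀ x : UnitAddCircle, a * ‖x‖ + h x + (a / 4 - 19 / 4 * K) * dd x ≤
      (3 / 10 * a + m) + (u x - u (2 • x)) + (v x - v (3 • x)) := by
    intro x
    have c2 := cert2_real (norm_nonneg x) (norm_le_half x)
    rw [← norm_two_smul, ← norm_three_smul] at c2
    have c2' := mul_le_mul_of_nonneg_left c2 ha0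
    have c3 := hle x
    simp only [hu, hv]
    unfold dd at *
    linarith
  have hint : Integrable (fun x : UnitAddCircle => a * ‖x‖ + h x) μ :=
    integrable_cont ((continuous_norm.const_mul a).add hK.continuous)
  rw [e5]
  obtain ⟨h1, h2⟩ := integral_le_of_cert hμ cu cv hint (c := 3 / 10 * a + m) (fun x => by
    have := hpt x
    have h3 : 0 ≤ (a / 4 - 19 / 4 * K) * dd x := mul_nonneg (by linarith) (dd_nonneg x)
    linarith)
  refine ⟨h1, fun hlt he => eq_mu5_of_ae hμ ?_⟩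
  filter_upwards [h2 he] with x hx
  have h3 := hpt x
  have h4 : (a / 4 - 19 / 4 * K) * dd x ≤ 0 := by linarith
  have h5 : dd x ≤ 0 := by
    by_contra hcon
    push Not at hcon
    have : 0 < (a / 4 - 19 / 4 * K) * dd x := mul_pos (by linarith) hcon
    linarith
  have h6 : dd x = 0 := le_antisymm h5 (dd_nonneg x)
  unfold dd at h6
  rcases min_choice |‖x‖ - 1 / 5| |‖x‖ - 2 / 5| with h | h
  · left
    rw [h] at h6
    linarith [abs_eq_zero.1 h6]
  · right
    rw [h] at h6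
    linarith [abs_eq_zero.1 h6]

end Pool.Agent.K3h16.CO
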